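import Mathlib
import Pool.Agent.Helper22.Half.GrowthA
import Pool.Agent.Helper22.Half.MeanA
import Pool.Agent.Helper22.Half.CloseA

/-!
MP_16b0ee, project BR (the mean of the power -2 of the derivative): common definitions.
-/

set_option autoImplicit false

open MeasureTheory Set Metric Filter Topology

namespace Pool.Agent.Helper24.Br

open Pool.Agent.Helper22.Half

/-- the constant `b (b + 1) / 2 * int_0^1 x (1 - x) / (x ^ (b + 3) + (1 - x) ^ (b + 3)) dx` -/
noncomputable def Th (b : ℝ) : ℝ :=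
  b * (b + 1) / 2 * ∫ x in (0:ℝ)..1, x * (1 - x) / (x ^ (b + 3) + (1 - x) ^ (b + 3))

/-- the bound of the upper form of the antidiagonal `d` of order `m` -/
noncomputable def Um (b : ℝ) (d : ℕ → ℂ) (m : ℕ) : ℝ :=
  (m + 1) * (m + b + 2) / (b * (b + 1)) * (pq (b + 3) m)⁻¹
    * ‖∑ l ∈ Finset.range (m + 1), d l‖ ^ 2

/-- the midpoints, in the reversed order -/
noncomputable def tt (m i : ℕ) : ℝ := (2 * ((m - i : ℕ) : ℝ) - 1) / (2 * m)

end Pool.Agent.Helper24.Br
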