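import Mathlib

/-!
Two classical facts: the derivative of an injective holomorphic function has no zero, and a
holomorphic function without zeros on the disc has a holomorphic logarithm.
-/

set_option autoImplicit false

open Set Metric Filter Topology

namespace Pool.Agent.Helper24.Br

/-- the derivative of an injective holomorphic function has no zero -/
theorem deriv_ne_of_inj {f : ℂ → ℂ} {U : Set ℂ} (hU : IsOpen U) (hf : DifferentiableOn ℂ f U)
    (hinj : InjOn f U) {z : ℂ} (hz : z ∈ U) : deriv f z ≠ 0 := by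
  intro h0
  have hUz : U ∈ 𝓝 z := hU.mem_nhds hz
  have hfa : AnalyticAt ℂ f z := hf.analyticAt hUz
  have hFa : AnalyticAt ℂ (fun w => f w - f z) z := hfa.sub analyticAt_const
  have hnc : ¬ ∀ᶠ w in 𝓝 z, f w - f z = 0 := by
    intro hev
    have h1 : ∀ᶠ w in 𝓝 z, w = z := by
      filter_upwards [hev, hUz] with w hw hwU
      exact hinj hwU hz (by linear_combination hw)
    have h2 : ∀ᶠ w in 𝓝[≠] z, w = z := h1.filter_mono nhdsWithin_le_nhds
    have h3 : ∀ᶠ w in 𝓝[≠] z, w ≠ z := self_mem_nhdsWithin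
    obtain ⟨w, hw1, hw2⟩ := (h2.and h3).exists
    exact hw2 hw1
  obtain ⟨n, g, hg, hgz, hev⟩ := hFa.exists_eventuallyEq_pow_smul_nonzero_iff.mpr hnc
  simp only [smul_eq_mul] at hev
  have hdF : HasDerivAt (fun w => f w - f z) 0 z := by
    have h := (hfa.differentiableAt.hasDerivAt).sub_const (f z)
    rwa [h0] at h
  have hn : 2 ≤ n := by
    by_contra hlt
    have hcase : n = 0 ∨ n = 1 := by omega
    rcases hcase with h | h
    · subst h
      have := hev.self_of_nhds
      simp only [sub_self, pow_zero, one_mul] at this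
      exact hgz this.symm
    · subst h
      have h2 : HasDerivAt (fun w => (w - z) ^ 1 * g w) (g z) z := by
        have h3 := ((hasDerivAt_id z).sub_const z).mul hg.differentiableAt.hasDerivAt
        simp only [id_eq, one_mul, sub_self, zero_mul, add_zero] at h3
        simp only [pow_one]
        exact h3
      have h4 := h2.congr_of_eventuallyEq hev
      have h5 := h4.unique hdF
      exact hgz h5
  have hn0 : (n : ℂ) ≠ 0 := by
    have : n ≠ 0 := by omega
    exact_mod_cast this
  -- a local root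
  obtain ⟨c, hc⟩ : ∃ c : ℂ, c ^ n = g z := by
    have : 0 < n := by omega
    obtain ⟨c, hc⟩ := IsAlgClosed.exists_pow_nat_eq (g z) this
    exact ⟨c, hc⟩
  have hc0 : c ≠ 0 := by
    intro h
    rw [h, zero_pow (by omega)] at hc
    exact hgz hc.symm
  have hq : AnalyticAt ℂ (fun w => g w / g z) z := hg.div analyticAt_const hgz
  have hq1 : g z / g z = 1 := div_self hgz
  have hlog : AnalyticAt ℂ (fun w => Complex.log (g w / g z)) z := by
    apply AnalyticAt.clog hq
    rw [hq1]
    exact Complex.one_mem_slitPlane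
  have hk : AnalyticAt ℂ (fun w => c * Complex.exp (Complex.log (g w / g z) / n)) z :=
    analyticAt_const.mul (hlog.div analyticAt_const hn0).cexp
  obtain ⟨k, hkd⟩ : ∃ k : ℂ → ℂ, k = fun w => c * Complex.exp (Complex.log (g w / g z) / n) :=
    ⟨_, rfl⟩
  rw [← hkd] at hk
  have hkz : k z = c := by
    rw [hkd]
    simp only [hq1, Complex.log_one, zero_div, Complex.exp_zero, mul_one]
  have hgne : ∀ᶠ w in 𝓝 z, g w ≠ 0 := hg.continuousAt.eventually_ne hgz
  have hkn : ∀ᶠ w in 𝓝 z, k w ^ n = g w := by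
    filter_upwards [hgne] with w hw
    rw [hkd]
    simp only
    rw [mul_pow, hc, ← Complex.exp_nat_mul, mul_div_cancel₀ _ hn0,
      Complex.exp_log (div_ne_zero hw hgz), mul_div_cancel₀ _ hgz]
  obtain ⟨u, hud⟩ : ∃ u : ℂ → ℂ, u = fun w => (w - z) * k w := ⟨_, rfl⟩
  have hua : AnalyticAt ℂ u z := by
    rw [hud]
    exact (analyticAt_id.sub analyticAt_const).mul hk
  have hu' : HasDerivAt u c z := by
    have h3 := ((hasDerivAt_id z).sub_const z).mul hk.differentiableAt.hasDerivAt
    simp only [id_eq, one_mul, sub_self, zero_mul, add_zero] at h3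
    rw [hkz] at h3
    rw [hud]
    exact h3
  have hus : HasStrictDerivAt u c z := by
    have := hua.hasStrictDerivAt
    rwa [hu'.deriv] at this
  have huz : u z = 0 := by rw [hud]; simp
  have hmap := hus.map_nhds_eq hc0
  rw [huz] at hmap
  have hgood : ∀ᶠ w in 𝓝 z, w ∈ U ∧ f w - f z = u w ^ n := by
    filter_upwards [hUz, hev, hkn] with w h1 h2 h3
    refine ⟨h1, ?_⟩
    rw [h2, hud]
    simp only
    rw [mul_pow, h3]
  have himg : u '' {w | w ∈ U ∧ f w - f z = u w ^ n} ∈ 𝓝 (0 : ℂ) := by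
    rw [← hmap]
    exact image_mem_map hgood
  rw [Metric.mem_nhds_iff] at himg
  obtain ⟨ε, hε, hball⟩ := himg
  have hω := Complex.isPrimitiveRoot_exp n (by omega)
  obtain ⟨ω, hωd⟩ : ∃ ω : ℂ, ω = Complex.exp (2 * Real.pi * Complex.I / n) := ⟨_, rfl⟩
  rw [← hωd] at hω
  have hω1 : ω ≠ 1 := hω.ne_one (by omega)
  have hωn : ω ^ n = 1 := hω.pow_eq_one
  have hωnorm : ‖ω‖ = 1 := hω.norm'_eq_one (by omega)
  have he0 : ((ε / 2 : ℝ) : ℂ) ≠ 0 := by
    have : (ε / 2 : ℝ) ≠ 0 := by positivity
    exact_mod_cast this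
  have hen : ‖((ε / 2 : ℝ) : ℂ)‖ < ε := by
    rw [Complex.norm_real, Real.norm_of_nonneg (by positivity)]
    linarith
  obtain ⟨w1, ⟨hw1U, hw1⟩, hw1e⟩ := hball (mem_ball_zero_iff.mpr hen)
  have hen2 : ω * ((ε / 2 : ℝ) : ℂ) ∈ ball (0 : ℂ) ε := by
    rw [mem_ball_zero_iff, norm_mul, hωnorm, one_mul]; exact hen
  obtain ⟨w2, ⟨hw2U, hw2⟩, hw2e⟩ := hball hen2
  rw [hw1e] at hw1
  rw [hw2e, mul_pow, hωn, one_mul] at hw2
  have h12 : w1 = w2 := hinj hw1U hw2U (by linear_combination hw1 - hw2)
  rw [h12, hw2e] at hw1e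
  apply hω1
  have : (ω - 1) * ((ε / 2 : ℝ) : ℂ) = 0 := by linear_combination hw1e
  rcases mul_eq_zero.mp this with h | h
  · linear_combination h
  · exact absurd h he0

/-- the holomorphic logarithm on the disc -/
theorem exists_log_ball {q : ℂ → ℂ} (hq : DifferentiableOn ℂ q (ball 0 1))
    (hq0 : ∀ z ∈ ball (0 : ℂ) 1, q z ≠ 0) (h1 : q 0 = 1) :
    ∃ H : ℂ → ℂ, DifferentiableOn ℂ H (ball 0 1) ∧ H 0 = 0 ∧
      ∀ z ∈ ball (0 : ℂ) 1, Complex.exp (H z) = q z := by
  have hd : DifferentiableOn ℂ (fun z => deriv q z / q z) (ball 0 1) :=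
    (hq.deriv isOpen_ball).div hq hq0
  obtain ⟨H, hH0, hH⟩ := hd.isExactOn_ball.with_val_at 0 0
  refine ⟨H, fun z hz => (hH z hz).differentiableAt.differentiableWithinAt, hH0, ?_⟩
  have hconst : ∀ z ∈ ball (0 : ℂ) 1, HasDerivAt (fun z => q z * Complex.exp (-H z)) 0 z := by
    intro z hz
    have hqz := (hq.differentiableAt (isOpen_ball.mem_nhds hz)).hasDerivAt
    have hne : HasDerivAt (fun z => -H z) (-(deriv q z / q z)) z := (hH z hz).neg
    have h3 : HasDerivAt (fun z => q z * Complex.exp (-H z))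
        (deriv q z * Complex.exp (-H z) + q z * (Complex.exp (-H z) * -(deriv q z / q z))) z :=
      hqz.mul hne.cexp
    have e : deriv q z * Complex.exp (-H z) + q z * (Complex.exp (-H z) * -(deriv q z / q z)) = 0 := by
      have := hq0 z hz
      field_simp
      ring
    rw [e] at h3
    exact h3
  intro z hz
  have h4 : (fun z => q z * Complex.exp (-H z)) z = (fun z => q z * Complex.exp (-H z)) 0 := by
    apply (convex_ball (0 : ℂ) 1).is_const_of_fderivWithin_eq_zero (𝕜 := ℂ)
      (f := fun z => q z * Complex.exp (-H z)) (fun w hw => (hconst w hw).differentiableAt.differentiableWithinAt)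
      ?_ hz (mem_ball_self one_pos)
    intro w hw
    rw [fderivWithin_of_isOpen isOpen_ball hw]
    have := (hconst w hw).hasFDerivAt.fderiv
    rw [this]
    ext
    simp
  simp only [hH0, neg_zero, Complex.exp_zero, mul_one, h1] at h4
  have h5 : Complex.exp (H z) * Complex.exp (-H z) = 1 := by
    rw [← Complex.exp_add, add_neg_cancel, Complex.exp_zero]
  have h6 := Complex.exp_ne_zero (-H z)
  apply mul_right_cancel₀ h6
  rw [h5, h4]

end Pool.Agent.Helper24.Br
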