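import Mathlib
import Pool.Agent.Helper24.Br.Inj
import Pool.Agent.Helper39.HR.Means

/-!
MP_16b0ee, project BR: the Brennan integrals from the means of the powers `-1` and `-2`.
-/

set_option autoImplicit false

open Set Metric Filter Topology MeasureTheory
open scoped Real ENNReal

namespace Pool.Agent.Helper24.Br

open Pool.Agent.Helper22.Half (SigmaLog)

/-- the bound of the integral means of the power `-2` over the whole class Sigma -/
def SigMean (b : ℝ) : Prop :=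
  ∃ C : ℝ, ∀ ψ : ℂ → ℂ, DifferentiableOn ℂ ψ {z : ℂ | 1 < ‖z‖} → InjOn ψ {z : ℂ | 1 < ‖z‖} →
    (∃ c : ℂ, Tendsto (fun z => ψ z - z) (Bornology.cobounded ℂ) (𝓝 c)) →
    ∀ R : ℝ, 1 < R →
      (1 / (2 * π)) * ∫ θ in (0:ℝ)..(2 * π),
        1 / ‖deriv ψ ((R : ℂ) * Complex.exp ((θ : ℂ) * Complex.I))‖ ^ 2 ≤
        C * (R ^ 2 / (R ^ 2 - 1)) ^ b

/-- the point with given polar coordinates -/
noncomputable def cp (r θ : ℝ) : ℂ := (r : ℂ) * Complex.exp ((θ : ℂ) * Complex.I)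

theorem norm_cp {r : ℝ} (hr : 0 ≤ r) (θ : ℝ) : ‖cp r θ‖ = r := by
  rw [cp, norm_mul, Complex.norm_exp_ofReal_mul_I, mul_one, Complex.norm_real,
    Real.norm_of_nonneg hr]

theorem cp_polar (p : ℝ × ℝ) : Complex.polarCoord.symm p = cp p.1 p.2 := by
  rw [Complex.polarCoord_symm_apply, cp, Complex.exp_mul_I]
  simp

theorem cont_cp : Continuous (fun p : ℝ × ℝ => cp p.1 p.2) := by
  unfold cp; fun_prop

theorem cont_cp' (r : ℝ) : Continuous (fun θ : ℝ => cp r θ) := by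
  unfold cp; fun_prop

theorem cp_periodic (r : ℝ) : Function.Periodic (fun θ => cp r θ) (2 * π) := by
  intro θ
  have : Complex.exp (((θ + 2 * π : ℝ) : ℂ) * Complex.I) = Complex.exp ((θ : ℂ) * Complex.I) := by
    push_cast
    rw [add_mul, Complex.exp_add, Complex.exp_two_pi_mul_I, mul_one]
  simp only [cp]
  rw [this]

theorem cp_inv (r θ : ℝ) : (cp r θ)⁻¹ = cp r⁻¹ (-θ) := by
  simp only [cp]
  rw [mul_inv, ← Complex.exp_neg]
  push_cast
  congr 2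
  ring

theorem refl_int {k : ℝ → ℝ} (hper : Function.Periodic k (2 * π)) :
    ∫ θ in (0:ℝ)..(2 * π), k (-θ) = ∫ θ in (0:ℝ)..(2 * π), k θ := by
  rw [intervalIntegral.integral_comp_neg (fun θ => k θ)]
  have h2 := hper.intervalIntegral_add_eq (-(2 * π)) 0
  have e1 : -(2 * π) + 2 * π = (0:ℝ) := by ring
  have e2 : (0:ℝ) + 2 * π = 2 * π := by ring
  rw [e1, e2] at h2
  rw [neg_zero, h2]

theorem shift_int {k : ℝ → ℝ} (hper : Function.Periodic k (2 * π)) :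
    ∫ θ in (-π)..π, k θ = ∫ θ in (0:ℝ)..(2 * π), k θ := by
  have h2 := hper.intervalIntegral_add_eq (-π) 0
  have e1 : -π + 2 * π = π := by ring
  have e2 : (0:ℝ) + 2 * π = 2 * π := by ring
  rw [e1, e2] at h2
  exact h2

/-- integrability over the disc from a bound of the circle integrals -/
theorem polar_integrable {F : ℂ → ℝ} (hF : ContinuousOn F (ball 0 1))
    (h0 : ∀ z ∈ ball (0 : ℂ) 1, 0 ≤ F z) {K e : ℝ} (he0 : 0 ≤ e) (he : e < 1)
    (hm : ∀ r : ℝ, 1 / 2 ≤ r → r < 1 →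
      ∫ θ in (0:ℝ)..(2 * π), F (cp r θ) ≤ K * (1 / (1 - r ^ 2)) ^ e) :
    IntegrableOn F (ball 0 1) := by
  obtain ⟨A, hA⟩ : ∃ A : Set ℂ, A = {z : ℂ | 1 / 2 < ‖z‖ ∧ ‖z‖ < 1} := ⟨_, rfl⟩
  have hsplit : ball (0 : ℂ) 1 = closedBall 0 (1 / 2) ∪ A := by
    ext z
    simp only [hA, mem_ball_zero_iff, mem_union, mem_closedBall_zero_iff, mem_ofPred_eq]
    constructor
    · intro h
      rcases le_or_gt ‖z‖ (1 / 2) with h1 | h1
      · exact Or.inl h1
      · exact Or.inr ⟨h1, h⟩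
    · rintro (h | h)
      · linarith
      · exact h.2
  have hAsub : A ⊆ ball (0 : ℂ) 1 := by
    rw [hsplit]; exact subset_union_right
  rw [hsplit]
  apply IntegrableOn.union
  · apply ContinuousOn.integrableOn_compact (isCompact_closedBall 0 (1 / 2))
    exact hF.mono (closedBall_subset_ball (by norm_num))
  have hAo : IsOpen A := by
    rw [hA]
    exact (isOpen_lt continuous_const continuous_norm).inter
      (isOpen_lt continuous_norm continuous_const)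
  refine ⟨(hF.mono hAsub).aestronglyMeasurable hAo.measurableSet, ?_⟩
  obtain ⟨S, hS⟩ : ∃ S : Set (ℝ × ℝ), S = Ioo (1 / 2 : ℝ) 1 ×ˢ Ioo (-π) π := ⟨_, rfl⟩
  have hSm : MeasurableSet S := by rw [hS]; exact measurableSet_Ioo.prod measurableSet_Ioo
  rw [hasFiniteIntegral_iff_enorm, ← lintegral_indicator hAo.measurableSet,
    ← Complex.lintegral_comp_polarCoord_symm, polarCoord_target]
  have hball : ∀ p ∈ S, cp p.1 p.2 ∈ ball (0 : ℂ) 1 := by
    rintro ⟨a, b⟩ hp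
    rw [hS] at hp
    obtain ⟨ha, hb⟩ := hp
    rw [mem_ball_zero_iff, norm_cp (by linarith [ha.1])]
    exact ha.2
  have hFc : ContinuousOn (fun p : ℝ × ℝ => F (cp p.1 p.2)) S :=
    hF.comp cont_cp.continuousOn hball
  calc ∫⁻ p in Ioi (0:ℝ) ×ˢ Ioo (-π) π, ENNReal.ofReal p.1 •
        A.indicator (fun z => ‖F z‖ₑ) (Complex.polarCoord.symm p)
      ≤ ∫⁻ p in Ioi (0:ℝ) ×ˢ Ioo (-π) π, S.indicator (fun p : ℝ × ℝ => ‖F (cp p.1 p.2)‖ₑ) p := by
        apply setLIntegral_mono' (measurableSet_Ioi.prod measurableSet_Ioo)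
        rintro ⟨a, b⟩ ⟨ha, hb⟩
        have ha' : (0 : ℝ) < a := ha
        rw [cp_polar]
        by_cases hin : cp a b ∈ A
        · have h2 : 1 / 2 < a ∧ a < 1 := by
            rw [hA, mem_ofPred_eq, norm_cp ha'.le] at hin
            exact hin
          have hmem : (a, b) ∈ S := by rw [hS]; exact ⟨h2, hb⟩
          rw [indicator_of_mem hin, indicator_of_mem hmem, smul_eq_mul]
          have h3 : ENNReal.ofReal a ≤ 1 := by
            rw [← ENNReal.ofReal_one]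
            exact ENNReal.ofReal_le_ofReal h2.2.le
          calc ENNReal.ofReal a * ‖F (cp a b)‖ₑ ≤ 1 * ‖F (cp a b)‖ₑ := by gcongr
            _ = ‖F (cp a b)‖ₑ := one_mul _
        · rw [indicator_of_notMem hin, smul_zero]
          exact zero_le
    _ ≤ ∫⁻ p, S.indicator (fun p : ℝ × ℝ => ‖F (cp p.1 p.2)‖ₑ) p := setLIntegral_le_lintegral _ _
    _ = ∫⁻ p in S, ‖F (cp p.1 p.2)‖ₑ := lintegral_indicator hSm _
    _ = ∫⁻ r in Ioo (1 / 2 : ℝ) 1, ∫⁻ θ in Ioo (-π) π, ‖F (cp r θ)‖ₑ := by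
        rw [hS, Measure.volume_eq_prod, ← Measure.prod_restrict, lintegral_prod]
        rw [Measure.prod_restrict, ← Measure.volume_eq_prod, ← hS]
        exact (hFc.aestronglyMeasurable hSm).enorm
    _ ≤ ∫⁻ r in Ioo (1 / 2 : ℝ) 1, ENNReal.ofReal (|K| * (1 - r) ^ (-e)) := by
        apply setLIntegral_mono' measurableSet_Ioo
        intro r hr
        have hr0 : 0 ≤ r := by linarith [hr.1]
        have hin : ∀ θ : ℝ, cp r θ ∈ ball (0 : ℂ) 1 := by
          intro θ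
          rw [mem_ball_zero_iff, norm_cp hr0]
          exact hr.2
        have hc : Continuous (fun θ : ℝ => F (cp r θ)) :=
          hF.comp_continuous (cont_cp' r) hin
        have e1 : ∫⁻ θ in Ioo (-π) π, ‖F (cp r θ)‖ₑ =
            ∫⁻ θ in Ioo (-π) π, ENNReal.ofReal (F (cp r θ)) := by
          apply lintegral_congr
          intro θ
          exact Real.enorm_of_nonneg (h0 _ (hin θ))
        have hint : IntegrableOn (fun θ : ℝ => F (cp r θ)) (Ioo (-π) π) :=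
          (hc.continuousOn.integrableOn_compact (isCompact_Icc (a := -π) (b := π))).mono_set
            Ioo_subset_Icc_self
        rw [e1, ← ofReal_integral_eq_lintegral_ofReal hint
          (ae_of_all _ fun θ => h0 _ (hin θ))]
        apply ENNReal.ofReal_le_ofReal
        rw [← integral_Ioc_eq_integral_Ioo,
          ← intervalIntegral.integral_of_le (by linarith [Real.pi_pos])]
        rw [shift_int (k := fun θ => F (cp r θ)) (by
          intro θ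
          simp only
          have := cp_periodic r θ
          simp only at this
          rw [this])]
        have hx : 0 < 1 - r := by linarith [hr.2]
        have hx2 : 0 < 1 - r ^ 2 := by nlinarith [hr.1, hr.2]
        have h1 : (1 / (1 - r ^ 2)) ^ e ≤ (1 - r) ^ (-e) := by
          rw [Real.rpow_neg hx.le, ← Real.inv_rpow hx.le, one_div]
          apply Real.rpow_le_rpow (by positivity) _ he0
          apply inv_anti₀ hx
          nlinarith [hr.1, hr.2]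
        calc ∫ θ in (0:ℝ)..(2 * π), F (cp r θ) ≤ K * (1 / (1 - r ^ 2)) ^ e := hm r hr.1.le hr.2
          _ ≤ |K| * (1 / (1 - r ^ 2)) ^ e := by
              apply mul_le_mul_of_nonneg_right (le_abs_self K) (by positivity)
          _ ≤ |K| * (1 - r) ^ (-e) := mul_le_mul_of_nonneg_left h1 (abs_nonneg K)
    _ < ∞ := by
        have h1 : IntervalIntegrable (fun x : ℝ => x ^ (-e)) volume (1 / 2) 0 :=
          intervalIntegral.intervalIntegrable_rpow' (by linarith)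
        have h2 := (h1.comp_sub_left 1).const_mul |K|
        have e3 : (1 : ℝ) - 1 / 2 = 1 / 2 := by norm_num
        rw [sub_zero, e3] at h2
        have h3 : IntegrableOn (fun r : ℝ => |K| * (1 - r) ^ (-e)) (Ioo (1 / 2) 1) := by
          rw [intervalIntegrable_iff_integrableOn_Ioo_of_le (by norm_num)] at h2
          exact h2
        exact h3.lintegral_lt_top

/-- an injective function of the disc gives a member of the class Sigma, with a bound of its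
derivative -/
theorem exists_sigma {f : ℂ → ℂ} (hf : DifferentiableOn ℂ f (ball 0 1))
    (hinj : InjOn f (ball 0 1)) :
    ∃ ψ h : ℂ → ℂ, SigmaLog ψ h ∧ ∃ K : ℝ, 0 ≤ K ∧ ∀ ζ : ℂ, 1 / 2 ≤ ‖ζ‖ → ‖ζ‖ < 1 →
      ‖deriv f ζ‖⁻¹ ≤ K * ‖deriv ψ ζ⁻¹‖⁻¹ := by
  have h0b : (0 : ℂ) ∈ ball (0 : ℂ) 1 := mem_ball_self one_pos
  have hf0 : ∀ z ∈ ball (0 : ℂ) 1, deriv f z ≠ 0 := fun z hz =>
    deriv_ne_of_inj isOpen_ball hf hinj hz
  obtain ⟨c, hc⟩ : ∃ c : ℂ, c = deriv f 0 := ⟨_, rfl⟩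
  have hc0 : c ≠ 0 := by rw [hc]; exact hf0 0 h0b
  obtain ⟨d, hd⟩ : ∃ d : ℂ → ℂ, d = dslope f 0 := ⟨_, rfl⟩
  have hdd : DifferentiableOn ℂ d (ball 0 1) := by
    rw [hd]
    exact (Complex.differentiableOn_dslope (isOpen_ball.mem_nhds h0b)).mpr hf
  have hd0 : d 0 = c := by rw [hd, dslope_same, hc]
  have hdn : ∀ z : ℂ, z ≠ 0 → d z = (f z - f 0) / z := by
    intro z hz
    rw [hd, dslope_of_ne _ hz, slope_def_field, sub_zero]
  have hfne : ∀ z ∈ ball (0 : ℂ) 1, z ≠ 0 → f z - f 0 ≠ 0 := by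
    intro z hz hz0 h
    exact hz0 (hinj hz h0b (sub_eq_zero.mp h))
  have hdne : ∀ z ∈ ball (0 : ℂ) 1, d z ≠ 0 := by
    intro z hz
    by_cases hz0 : z = 0
    · rw [hz0, hd0]; exact hc0
    · rw [hdn z hz0]
      exact div_ne_zero (hfne z hz hz0) hz0
  obtain ⟨q, hq⟩ : ∃ q : ℂ → ℂ, q = fun ζ => c * deriv f ζ / (d ζ) ^ 2 := ⟨_, rfl⟩
  have hqd : DifferentiableOn ℂ q (ball 0 1) := by
    rw [hq]
    exact ((hf.deriv isOpen_ball).const_mul c).div (hdd.pow 2)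
      (fun z hz => pow_ne_zero 2 (hdne z hz))
  have hqne : ∀ z ∈ ball (0 : ℂ) 1, q z ≠ 0 := by
    intro z hz
    rw [hq]
    exact div_ne_zero (mul_ne_zero hc0 (hf0 z hz)) (pow_ne_zero 2 (hdne z hz))
  have hq1 : q 0 = 1 := by
    rw [hq]
    simp only [hd0, ← hc]
    field_simp
  obtain ⟨H, hHd, hH0, hHe⟩ := exists_log_ball hqd hqne hq1
  obtain ⟨ψ, hψ⟩ : ∃ ψ : ℂ → ℂ, ψ = fun z => c / (f z⁻¹ - f 0) := ⟨_, rfl⟩
  have hin : ∀ z : ℂ, 1 < ‖z‖ → z⁻¹ ∈ ball (0 : ℂ) 1 := by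
    intro z hz
    rw [mem_ball_zero_iff, norm_inv]
    exact inv_lt_one_of_one_lt₀ hz
  have hne : ∀ z : ℂ, 1 < ‖z‖ → z ≠ 0 := by
    intro z hz h
    rw [h, norm_zero] at hz
    linarith
  have hψd : ∀ z : ℂ, 1 < ‖z‖ → HasDerivAt ψ (q z⁻¹) z := by
    intro z hz
    have hz0 := hne z hz
    have hzi : z⁻¹ ≠ 0 := inv_ne_zero hz0
    have h1 : HasDerivAt f (deriv f z⁻¹) z⁻¹ :=
      (hf.differentiableAt (isOpen_ball.mem_nhds (hin z hz))).hasDerivAt
    have h2 : HasDerivAt (fun z : ℂ => f z⁻¹) (deriv f z⁻¹ * -(z ^ 2)⁻¹) z :=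
      h1.comp z (hasDerivAt_inv hz0)
    have h3 := h2.sub_const (f 0)
    have hA := hfne _ (hin z hz) hzi
    have h4 := (hasDerivAt_const z c).fun_div h3 hA
    have e : (0 * (f z⁻¹ - f 0) - c * (deriv f z⁻¹ * -(z ^ 2)⁻¹)) / (f z⁻¹ - f 0) ^ 2 =
        q z⁻¹ := by
      rw [hq]
      simp only
      rw [hdn _ hzi]
      field_simp
      ring
    rw [e] at h4
    rw [hψ]
    exact h4
  have hS : SigmaLog ψ (fun z => H z⁻¹) := by
    refine ⟨fun z hz => (hψd z hz).differentiableAt.differentiableWithinAt, ?_, ?_, ?_, ?_, ?_⟩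
    · intro z hz w hw hzw
      rw [hψ] at hzw
      simp only at hzw
      have hA := hfne _ (hin z hz) (inv_ne_zero (hne z hz))
      have hB := hfne _ (hin w hw) (inv_ne_zero (hne w hw))
      have h1 : f z⁻¹ = f w⁻¹ := by
        rw [div_eq_div_iff hA hB] at hzw
        have := mul_left_cancel₀ hc0 hzw
        linear_combination -this
      exact inv_inj.mp (hinj (hin z hz) (hin w hw) h1)
    · obtain ⟨g, hg⟩ : ∃ g : ℂ → ℂ, g = fun ζ => c / d ζ := ⟨_, rfl⟩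
      have hgd : HasDerivAt g (deriv g 0) 0 := by
        apply DifferentiableAt.hasDerivAt
        rw [hg]
        exact (differentiableAt_const c).div (hdd.differentiableAt (isOpen_ball.mem_nhds h0b))
          (hdne 0 h0b)
      have hg0 : g 0 = 1 := by
        rw [hg]
        simp only [hd0]
        exact div_self hc0
      refine ⟨deriv g 0, ?_⟩
      have h1 := hasDerivAt_iff_tendsto_slope.mp hgd
      have h2 : Tendsto (fun z : ℂ => z⁻¹) (Bornology.cobounded ℂ) (𝓝[≠] 0) :=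
        Filter.tendsto_inv₀_cobounded'
      have h3 := h1.comp h2
      refine h3.congr' ?_
      filter_upwards [Bornology.eventually_ne_cobounded (0 : ℂ)] with z hz
      have hzi : z⁻¹ ≠ 0 := inv_ne_zero hz
      simp only [Function.comp]
      rw [slope_def_field, hg0, sub_zero, hg, hψ]
      simp only
      rw [hdn _ hzi, div_div_eq_mul_div, sub_div, one_div, inv_inv]
      congr 1
      rw [div_div, mul_comm (f z⁻¹ - f 0) z⁻¹, mul_comm c z⁻¹, mul_div_mul_left _ _ hzi]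
    · exact hHd.comp (fun z hz => (differentiableAt_inv (hne z hz)).differentiableWithinAt)
        (fun z hz => hin z hz)
    · intro z hz
      rw [hHe _ (hin z hz), (hψd z hz).deriv]
    · have h1 : Tendsto (fun z : ℂ => z⁻¹) (Bornology.cobounded ℂ) (𝓝 0) :=
        Filter.tendsto_inv₀_cobounded
      have h2 : Tendsto H (𝓝 0) (𝓝 0) := by
        have := (hHd.differentiableAt (isOpen_ball.mem_nhds h0b)).continuousAt.tendsto
        rwa [hH0] at this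
      exact h2.comp h1
  refine ⟨ψ, fun z => H z⁻¹, hS, ?_⟩
  -- the lower bound of the slope
  obtain ⟨δ, hδ, hlow⟩ : ∃ δ : ℝ, 0 < δ ∧ ∀ ζ : ℂ, 1 / 2 ≤ ‖ζ‖ → ‖ζ‖ < 1 → δ ≤ ‖d ζ‖ := by
    have hfa : AnalyticAt ℂ f 0 := hf.analyticAt (isOpen_ball.mem_nhds h0b)
    have hmap := hfa.hasStrictDerivAt.map_nhds_eq (hf0 0 h0b)
    have himg : f '' ball 0 (1 / 2) ∈ 𝓝 (f 0) := by
      rw [← hmap]
      exact image_mem_map (ball_mem_nhds 0 (by norm_num))
    rw [Metric.mem_nhds_iff] at himg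
    obtain ⟨δ, hδ, hball⟩ := himg
    refine ⟨δ, hδ, ?_⟩
    intro ζ h1 h2
    have hζ0 : ζ ≠ 0 := by
      intro h
      rw [h, norm_zero] at h1
      norm_num at h1
    have hge : δ ≤ ‖f ζ - f 0‖ := by
      by_contra hlt
      push Not at hlt
      obtain ⟨w, hw, hwe⟩ := hball (mem_ball_iff_norm.mpr hlt)
      have hw' : w ∈ ball (0 : ℂ) 1 := ball_subset_ball (by norm_num) hw
      have h3 := hinj hw' (mem_ball_zero_iff.mpr h2) hwe
      rw [h3, mem_ball_zero_iff] at hw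
      linarith
    rw [hdn ζ hζ0, norm_div]
    have h3 : 0 < ‖ζ‖ := by linarith
    rw [le_div_iff₀ h3]
    nlinarith [norm_nonneg (f ζ - f 0)]
  refine ⟨‖c‖ / δ ^ 2, by positivity, ?_⟩
  intro ζ h1 h2
  have hζ : ζ ∈ ball (0 : ℂ) 1 := mem_ball_zero_iff.mpr h2
  have hζi : 1 < ‖ζ⁻¹‖ := by
    rw [norm_inv]
    exact (one_lt_inv₀ (by linarith)).mpr h2
  rw [(hψd _ hζi).deriv, inv_inv]
  have hfp : 0 < ‖deriv f ζ‖ := norm_pos_iff.mpr (hf0 ζ hζ)
  have hcp : 0 < ‖c‖ := norm_pos_iff.mpr hc0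
  have hdp : 0 < ‖d ζ‖ := norm_pos_iff.mpr (hdne ζ hζ)
  have hqn : ‖q ζ‖ = ‖c‖ * ‖deriv f ζ‖ / ‖d ζ‖ ^ 2 := by
    rw [hq]
    simp only
    rw [norm_div, norm_mul, norm_pow]
  rw [hqn, inv_div]
  have h3 : δ ^ 2 ≤ ‖d ζ‖ ^ 2 := by
    have := hlow ζ h1 h2
    gcongr
  have h4 : ‖c‖ / δ ^ 2 * (‖d ζ‖ ^ 2 / (‖c‖ * ‖deriv f ζ‖)) =
      ‖d ζ‖ ^ 2 / δ ^ 2 * ‖deriv f ζ‖⁻¹ := by
    field_simp
  rw [h4]
  have h5 : 1 ≤ ‖d ζ‖ ^ 2 / δ ^ 2 := by
    rw [le_div_iff₀ (by positivity)]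
    linarith
  have h6 : 0 < ‖deriv f ζ‖⁻¹ := by positivity
  nlinarith

/-- comparison of the circle integrals -/
theorem circle_cmp {f ψ h : ℂ → ℂ} (hf : DifferentiableOn ℂ f (ball 0 1))
    (hinj : InjOn f (ball 0 1)) (hS : SigmaLog ψ h) {K : ℝ}
    (hc : ∀ ζ : ℂ, 1 / 2 ≤ ‖ζ‖ → ‖ζ‖ < 1 → ‖deriv f ζ‖⁻¹ ≤ K * ‖deriv ψ ζ⁻¹‖⁻¹) (s : ℕ) {r : ℝ}
    (hr : 1 / 2 ≤ r) (hr1 : r < 1) :
    ∫ θ in (0:ℝ)..(2 * π), (‖deriv f (cp r θ)‖⁻¹) ^ s ≤
      K ^ s * ∫ θ in (0:ℝ)..(2 * π), (‖deriv ψ (cp r⁻¹ θ)‖⁻¹) ^ s := by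
  have hr0 : 0 ≤ r := by linarith
  have hin : ∀ θ : ℝ, cp r θ ∈ ball (0 : ℂ) 1 := fun θ => by
    rw [mem_ball_zero_iff, norm_cp hr0]; exact hr1
  have hRi : 1 < r⁻¹ := (one_lt_inv₀ (by linarith)).mpr hr1
  have hout : ∀ θ : ℝ, cp r⁻¹ θ ∈ {z : ℂ | 1 < ‖z‖} := fun θ => by
    show 1 < ‖cp r⁻¹ θ‖
    rw [norm_cp (by linarith)]; exact hRi
  have hEo : IsOpen {z : ℂ | 1 < ‖z‖} := isOpen_lt continuous_const continuous_norm
  have hψ0 : ∀ z ∈ {z : ℂ | 1 < ‖z‖}, deriv ψ z ≠ 0 := fun z hz => by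
    rw [← hS.exp_eq z hz]; exact Complex.exp_ne_zero _
  have hf0 : ∀ z ∈ ball (0 : ℂ) 1, deriv f z ≠ 0 := fun z hz =>
    deriv_ne_of_inj isOpen_ball hf hinj hz
  have c1 : Continuous (fun θ : ℝ => (‖deriv f (cp r θ)‖⁻¹) ^ s) := by
    apply Continuous.pow
    apply Continuous.inv₀
    · exact ((hf.deriv isOpen_ball).continuousOn.comp_continuous (cont_cp' r) hin).norm
    · intro θ
      exact norm_ne_zero_iff.mpr (hf0 _ (hin θ))
  have c2 : Continuous (fun θ : ℝ => (‖deriv ψ (cp r⁻¹ θ)‖⁻¹) ^ s) := by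
    apply Continuous.pow
    apply Continuous.inv₀
    · exact ((hS.diff.deriv hEo).continuousOn.comp_continuous (cont_cp' r⁻¹) hout).norm
    · intro θ
      exact norm_ne_zero_iff.mpr (hψ0 _ (hout θ))
  have hper : Function.Periodic (fun θ => (‖deriv ψ (cp r⁻¹ θ)‖⁻¹) ^ s) (2 * π) := by
    intro θ
    have := cp_periodic r⁻¹ θ
    simp only at this ⊢
    rw [this]
  rw [← refl_int hper, ← intervalIntegral.integral_const_mul]
  apply intervalIntegral.integral_mono_on (by positivity) (c1.intervalIntegrable _ _)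
    ((continuous_const.mul (c2.comp continuous_neg)).intervalIntegrable _ _)
  intro θ _
  have h1 := hc (cp r θ) (by rw [norm_cp hr0]; exact hr) (by rw [norm_cp hr0]; exact hr1)
  rw [cp_inv] at h1
  calc (‖deriv f (cp r θ)‖⁻¹) ^ s ≤ (K * ‖deriv ψ (cp r⁻¹ (-θ))‖⁻¹) ^ s := by gcongr
    _ = _ := mul_pow _ _ _

theorem inv_sq_div {r : ℝ} (hr : 1 / 2 ≤ r) (hr1 : r < 1) :
    r⁻¹ ^ 2 / (r⁻¹ ^ 2 - 1) = 1 / (1 - r ^ 2) := by
  have h1 : r ≠ 0 := by linarith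
  have h2 : 1 - r ^ 2 ≠ 0 := by nlinarith
  have h3 : r⁻¹ ^ 2 - 1 = (1 - r ^ 2) / r ^ 2 := by
    field_simp
  rw [h3]
  field_simp

/-- the weighted inequality of the means for two powers -/
theorem two_powers {a X α b u : ℝ} (ha : 0 < a) (hX : 0 < X) (hu0 : 0 ≤ u) (hu1 : u ≤ 1) :
    a ^ (1 + u) ≤ X ^ ((1 - u) * α + u * b) *
      ((1 - u) * (a * X ^ (-α)) + u * (a ^ 2 * X ^ (-b))) := by
  have h1 := Real.geom_mean_le_arith_mean2_weighted (w₁ := 1 - u) (w₂ := u)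
    (p₁ := a * X ^ (-α)) (p₂ := a ^ 2 * X ^ (-b)) (by linarith) hu0 (by positivity)
    (by positivity) (by ring)
  have h2 : a ^ (1 + u) = X ^ ((1 - u) * α + u * b) *
      ((a * X ^ (-α)) ^ (1 - u) * (a ^ 2 * X ^ (-b)) ^ u) := by
    rw [Real.mul_rpow ha.le (by positivity), Real.mul_rpow (by positivity) (by positivity),
      ← Real.rpow_mul hX.le, ← Real.rpow_mul hX.le, ← Real.rpow_natCast a 2,
      ← Real.rpow_mul ha.le]
    have e : X ^ ((1 - u) * α + u * b) * (a ^ (1 - u) * X ^ (-α * (1 - u)) *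
        (a ^ (((2 : ℕ) : ℝ) * u) * X ^ (-b * u))) =
        (a ^ (1 - u) * a ^ (((2 : ℕ) : ℝ) * u)) *
        (X ^ ((1 - u) * α + u * b) * X ^ (-α * (1 - u)) * X ^ (-b * u)) := by ring
    rw [e, ← Real.rpow_add ha, ← Real.rpow_add hX, ← Real.rpow_add hX]
    have e1 : 1 - u + ((2 : ℕ) : ℝ) * u = 1 + u := by push_cast; ring
    have e2 : (1 - u) * α + u * b + -α * (1 - u) + -b * u = 0 := by ring
    rw [e1, e2, Real.rpow_zero, mul_one]
  rw [h2]
  exact mul_le_mul_of_nonneg_left h1 (by positivity)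

/-- the integral over the disc of the power of the derivative, from the bounds of the circle
means over the class Sigma -/
theorem brennan {b : ℝ} (hb : 4 / 9 < b) (hall : SigMean b) {p : ℝ} (hp : 2 ≤ p) (hp4 : p ≤ 4)
    (hpb : p < 3 + (5 / 9) / (b - 4 / 9)) {f : ℂ → ℂ} (hf : DifferentiableOn ℂ f (ball 0 1))
    (hinj : InjOn f (ball 0 1)) :
    IntegrableOn (fun z => ‖deriv f z‖ ^ (2 - p)) (ball 0 1) := by
  obtain ⟨ψ, h, hS, K, hK, hc⟩ := exists_sigma hf hinj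
  obtain ⟨C1, hC1, hm1⟩ := Pool.Agent.Helper39.HR.means9
  obtain ⟨C2, hm2⟩ := hall
  have hf0 : ∀ z ∈ ball (0 : ℂ) 1, deriv f z ≠ 0 := fun z hz =>
    deriv_ne_of_inj isOpen_ball hf hinj hz
  have hpi := Real.pi_pos
  have hXpos : ∀ r : ℝ, 1 / 2 ≤ r → r < 1 → 1 ≤ 1 / (1 - r ^ 2) := by
    intro r hr hr1
    rw [le_div_iff₀ (by nlinarith)]
    nlinarith
  obtain ⟨M1, hM1, h1⟩ : ∃ M1 : ℝ, 0 ≤ M1 ∧ ∀ r : ℝ, 1 / 2 ≤ r → r < 1 →
      ∫ θ in (0:ℝ)..(2 * π), ‖deriv f (cp r θ)‖⁻¹ ≤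
        M1 * (1 / (1 - r ^ 2)) ^ (4 / 9 : ℝ) := by
    refine ⟨K * (2 * π * C1), by positivity, ?_⟩
    intro r hr hr1
    have hRi : 1 < r⁻¹ := (one_lt_inv₀ (by linarith)).mpr hr1
    have e := circle_cmp hf hinj hS hc 1 hr hr1
    simp only [pow_one] at e
    have e2 := hm1 r⁻¹ hRi ψ h hS (-1) (by simp)
    have e3 : ∀ θ : ℝ, ‖Complex.exp ((-1) * h (((r⁻¹ : ℝ) : ℂ) *
        Complex.exp ((θ : ℂ) * Complex.I)))‖ = ‖deriv ψ (cp r⁻¹ θ)‖⁻¹ := by
      intro θ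
      have hz : 1 < ‖cp r⁻¹ θ‖ := by
        rw [norm_cp (by linarith)]; exact hRi
      rw [← hS.exp_eq _ hz, neg_one_mul, Complex.exp_neg, norm_inv]
      rfl
    simp_rw [e3] at e2
    rw [inv_sq_div hr hr1] at e2
    have e4 : (4 / 9 * ‖(-1 : ℂ)‖ ^ 2 : ℝ) = 4 / 9 := by simp
    rw [e4] at e2
    have e5 : ∫ θ in (0:ℝ)..(2 * π), ‖deriv ψ (cp r⁻¹ θ)‖⁻¹ ≤
        2 * π * (C1 * (1 / (1 - r ^ 2)) ^ (4 / 9 : ℝ)) := by
      rw [one_div_mul_eq_div, div_le_iff₀ (by positivity)] at e2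
      linarith
    calc ∫ θ in (0:ℝ)..(2 * π), ‖deriv f (cp r θ)‖⁻¹
        ≤ K * ∫ θ in (0:ℝ)..(2 * π), ‖deriv ψ (cp r⁻¹ θ)‖⁻¹ := e
      _ ≤ K * (2 * π * (C1 * (1 / (1 - r ^ 2)) ^ (4 / 9 : ℝ))) :=
          mul_le_mul_of_nonneg_left e5 hK
      _ = _ := by ring
  obtain ⟨M2, hM2, h2⟩ : ∃ M2 : ℝ, 0 ≤ M2 ∧ ∀ r : ℝ, 1 / 2 ≤ r → r < 1 →
      ∫ θ in (0:ℝ)..(2 * π), (‖deriv f (cp r θ)‖⁻¹) ^ 2 ≤
        M2 * (1 / (1 - r ^ 2)) ^ b := by
    refine ⟨K ^ 2 * (2 * π * |C2|), by positivity, ?_⟩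
    intro r hr hr1
    have hRi : 1 < r⁻¹ := (one_lt_inv₀ (by linarith)).mpr hr1
    have e := circle_cmp hf hinj hS hc 2 hr hr1
    have e2 := hm2 ψ hS.diff hS.inj hS.normalised r⁻¹ hRi
    have e3 : ∀ θ : ℝ, 1 / ‖deriv ψ (((r⁻¹ : ℝ) : ℂ) *
        Complex.exp ((θ : ℂ) * Complex.I))‖ ^ 2 = (‖deriv ψ (cp r⁻¹ θ)‖⁻¹) ^ 2 := by
      intro θ
      rw [inv_pow, one_div]
      rfl
    simp_rw [e3] at e2
    rw [inv_sq_div hr hr1] at e2
    have e5 : ∫ θ in (0:ℝ)..(2 * π), (‖deriv ψ (cp r⁻¹ θ)‖⁻¹) ^ 2 ≤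
        2 * π * (|C2| * (1 / (1 - r ^ 2)) ^ b) := by
      have hX : 0 < (1 / (1 - r ^ 2)) ^ b :=
        Real.rpow_pos_of_pos (by linarith [hXpos r hr hr1]) _
      have e6 := e2.trans (mul_le_mul_of_nonneg_right (le_abs_self C2) hX.le)
      rw [one_div_mul_eq_div, div_le_iff₀ (by positivity)] at e6
      linarith
    calc ∫ θ in (0:ℝ)..(2 * π), (‖deriv f (cp r θ)‖⁻¹) ^ 2
        ≤ K ^ 2 * ∫ θ in (0:ℝ)..(2 * π), (‖deriv ψ (cp r⁻¹ θ)‖⁻¹) ^ 2 := e
      _ ≤ K ^ 2 * (2 * π * (|C2| * (1 / (1 - r ^ 2)) ^ b)) :=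
          mul_le_mul_of_nonneg_left e5 (by positivity)
      _ = _ := by ring
  have hFc : ContinuousOn (fun z => ‖deriv f z‖ ^ (2 - p)) (ball 0 1) := by
    apply ContinuousOn.rpow_const (hf.deriv isOpen_ball).continuousOn.norm
    intro z hz
    exact Or.inl (norm_ne_zero_iff.mpr (hf0 z hz))
  have hFn : ∀ z ∈ ball (0 : ℂ) 1, 0 ≤ ‖deriv f z‖ ^ (2 - p) := fun z _ => by positivity
  have hFe : ∀ z ∈ ball (0 : ℂ) 1, ‖deriv f z‖ ^ (2 - p) = (‖deriv f z‖⁻¹) ^ (p - 2) := by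
    intro z _
    rw [Real.inv_rpow (norm_nonneg _), ← Real.rpow_neg (norm_nonneg _)]
    congr 1
    ring
  have hin : ∀ r : ℝ, 1 / 2 ≤ r → r < 1 → ∀ θ : ℝ, cp r θ ∈ ball (0 : ℂ) 1 := by
    intro r hr hr1 θ
    rw [mem_ball_zero_iff, norm_cp (by linarith)]
    exact hr1
  have hca : ∀ r : ℝ, 1 / 2 ≤ r → r < 1 → Continuous (fun θ : ℝ => ‖deriv f (cp r θ)‖⁻¹) := by
    intro r hr hr1
    apply Continuous.inv₀
    · exact ((hf.deriv isOpen_ball).continuousOn.comp_continuous (cont_cp' r)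
        (hin r hr hr1)).norm
    · intro θ
      exact norm_ne_zero_iff.mpr (hf0 _ (hin r hr hr1 θ))
  have hcF : ∀ r : ℝ, 1 / 2 ≤ r → r < 1 →
      Continuous (fun θ : ℝ => ‖deriv f (cp r θ)‖ ^ (2 - p)) := fun r hr hr1 =>
    hFc.comp_continuous (cont_cp' r) (hin r hr hr1)
  rcases le_or_gt p 3 with hp3 | hp3
  · refine polar_integrable hFc hFn (K := 2 * π + M1) (e := 4 / 9) (by norm_num) (by norm_num) ?_
    intro r hr hr1
    have hX := hXpos r hr hr1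
    have hX1 : 1 ≤ (1 / (1 - r ^ 2)) ^ (4 / 9 : ℝ) := Real.one_le_rpow hX (by norm_num)
    have e1 : ∫ θ in (0:ℝ)..(2 * π), ‖deriv f (cp r θ)‖ ^ (2 - p) ≤
        ∫ θ in (0:ℝ)..(2 * π), (1 + ‖deriv f (cp r θ)‖⁻¹) := by
      apply intervalIntegral.integral_mono_on (by positivity)
        ((hcF r hr hr1).intervalIntegrable _ _)
        ((continuous_const.add (hca r hr hr1)).intervalIntegrable _ _)
      intro θ _
      rw [hFe _ (hin r hr hr1 θ)]
      show _ ≤ 1 + ‖deriv f (cp r θ)‖⁻¹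
      have ha : 0 ≤ ‖deriv f (cp r θ)‖⁻¹ := by positivity
      rcases le_or_gt ‖deriv f (cp r θ)‖⁻¹ 1 with ha1 | ha1
      · have := Real.rpow_le_one ha ha1 (show 0 ≤ p - 2 by linarith)
        linarith
      · have := Real.rpow_le_rpow_of_exponent_le ha1.le (show p - 2 ≤ 1 by linarith)
        rw [Real.rpow_one] at this
        linarith
    have e2 : ∫ θ in (0:ℝ)..(2 * π), (1 + ‖deriv f (cp r θ)‖⁻¹) =
        2 * π + ∫ θ in (0:ℝ)..(2 * π), ‖deriv f (cp r θ)‖⁻¹ := by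
      rw [intervalIntegral.integral_add (continuous_const.intervalIntegrable _ _)
        ((hca r hr hr1).intervalIntegrable _ _)]
      simp
    have e3 := h1 r hr hr1
    have e4 : 2 * π * 1 ≤ 2 * π * (1 / (1 - r ^ 2)) ^ (4 / 9 : ℝ) :=
      mul_le_mul_of_nonneg_left hX1 (by positivity)
    rw [e2] at e1
    linarith
  · obtain ⟨u, hu⟩ : ∃ u : ℝ, u = p - 3 := ⟨_, rfl⟩
    have hu0 : 0 ≤ u := by linarith
    have hu1 : u ≤ 1 := by linarith
    have hbp : 0 < b - 4 / 9 := by linarith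
    have hub : u * (b - 4 / 9) < 5 / 9 := by
      have : u < (5 / 9) / (b - 4 / 9) := by linarith
      rwa [lt_div_iff₀ hbp] at this
    refine polar_integrable hFc hFn (K := (1 - u) * M1 + u * M2)
      (e := (1 - u) * (4 / 9) + u * b) (by nlinarith) (by nlinarith) ?_
    intro r hr hr1
    have hX := hXpos r hr hr1
    obtain ⟨X, hXd⟩ : ∃ X : ℝ, X = 1 / (1 - r ^ 2) := ⟨_, rfl⟩
    have e3 := h1 r hr hr1
    have e4 := h2 r hr hr1
    rw [← hXd] at hX e3 e4 ⊢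
    have hX0 : 0 < X := by linarith
    have hca2 : Continuous (fun θ : ℝ => (‖deriv f (cp r θ)‖⁻¹) ^ 2) := (hca r hr hr1).pow 2
    have e1 : ∫ θ in (0:ℝ)..(2 * π), ‖deriv f (cp r θ)‖ ^ (2 - p) ≤
        ∫ θ in (0:ℝ)..(2 * π), (X ^ ((1 - u) * (4 / 9) + u * b) *
          ((1 - u) * (‖deriv f (cp r θ)‖⁻¹ * X ^ (-(4 / 9 : ℝ))) +
            u * ((‖deriv f (cp r θ)‖⁻¹) ^ 2 * X ^ (-b)))) := by
      apply intervalIntegral.integral_mono_on (by positivity)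
        ((hcF r hr hr1).intervalIntegrable _ _)
      · apply Continuous.intervalIntegrable
        exact continuous_const.mul ((continuous_const.mul ((hca r hr hr1).mul continuous_const)).add
          (continuous_const.mul (hca2.mul continuous_const)))
      intro θ _
      rw [hFe _ (hin r hr hr1 θ)]
      have ha : 0 < ‖deriv f (cp r θ)‖⁻¹ :=
        inv_pos.mpr (norm_pos_iff.mpr (hf0 _ (hin r hr hr1 θ)))
      have e : p - 2 = 1 + u := by rw [hu]; ring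
      rw [e]
      exact two_powers ha hX0 hu0 hu1
    have e2 : ∫ θ in (0:ℝ)..(2 * π), (X ^ ((1 - u) * (4 / 9) + u * b) *
          ((1 - u) * (‖deriv f (cp r θ)‖⁻¹ * X ^ (-(4 / 9 : ℝ))) +
            u * ((‖deriv f (cp r θ)‖⁻¹) ^ 2 * X ^ (-b)))) =
        X ^ ((1 - u) * (4 / 9) + u * b) *
          ((1 - u) * ((∫ θ in (0:ℝ)..(2 * π), ‖deriv f (cp r θ)‖⁻¹) * X ^ (-(4 / 9 : ℝ))) +
            u * ((∫ θ in (0:ℝ)..(2 * π), (‖deriv f (cp r θ)‖⁻¹) ^ 2) * X ^ (-b))) := by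
      rw [intervalIntegral.integral_const_mul, intervalIntegral.integral_add,
        intervalIntegral.integral_const_mul, intervalIntegral.integral_mul_const,
        intervalIntegral.integral_const_mul, intervalIntegral.integral_mul_const]
      · exact (continuous_const.mul ((hca r hr hr1).mul
          continuous_const)).intervalIntegrable _ _
      · exact (continuous_const.mul (hca2.mul continuous_const)).intervalIntegrable _ _
    have hXa : X ^ (4 / 9 : ℝ) * X ^ (-(4 / 9 : ℝ)) = 1 := by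
      rw [← Real.rpow_add hX0, add_neg_cancel, Real.rpow_zero]
    have hXb : X ^ b * X ^ (-b) = 1 := by
      rw [← Real.rpow_add hX0, add_neg_cancel, Real.rpow_zero]
    have hn1 : 0 < X ^ (-(4 / 9 : ℝ)) := by positivity
    have hn2 : 0 < X ^ (-b) := by positivity
    have e5 : (∫ θ in (0:ℝ)..(2 * π), ‖deriv f (cp r θ)‖⁻¹) * X ^ (-(4 / 9 : ℝ)) ≤ M1 := by
      calc _ ≤ (M1 * X ^ (4 / 9 : ℝ)) * X ^ (-(4 / 9 : ℝ)) :=
            mul_le_mul_of_nonneg_right e3 hn1.le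
        _ = M1 * (X ^ (4 / 9 : ℝ) * X ^ (-(4 / 9 : ℝ))) := by ring
        _ = M1 := by rw [hXa, mul_one]
    have e6 : (∫ θ in (0:ℝ)..(2 * π), (‖deriv f (cp r θ)‖⁻¹) ^ 2) * X ^ (-b) ≤ M2 := by
      calc _ ≤ (M2 * X ^ b) * X ^ (-b) :=
            mul_le_mul_of_nonneg_right e4 hn2.le
        _ = M2 * (X ^ b * X ^ (-b)) := by ring
        _ = M2 := by rw [hXb, mul_one]
    refine e1.trans ?_
    rw [e2, mul_comm ((1 - u) * M1 + u * M2)]
    apply mul_le_mul_of_nonneg_left _ (by positivity)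
    have e7 := mul_le_mul_of_nonneg_left e5 (show 0 ≤ 1 - u by linarith)
    have e8 := mul_le_mul_of_nonneg_left e6 hu0
    linarith

end Pool.Agent.Helper24.Br
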