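import Mathlib
import Pool.Agent.Helper22.Half.MeanA
import Pool.Agent.Helper39.HR.Bergman

/-!
Weighted Riemann sums with the weights `pq z i`.
-/

set_option autoImplicit false

open Finset Filter Topology MeasureTheory

namespace Pool.Agent.Helper24.Br

open Pool.Agent.Helper22.Half (pq pq_zero pq_succ pq_succ' pq_shift pq_add_one pq_one pq_pos vander)

/-- mixed rising and ordinary powers -/
noncomputable def Cs (z : ℝ) (k l m : ℕ) : ℝ :=
  ∑ i ∈ range m, pq z i * ((k.factorial : ℝ) * pq ((k : ℝ) + 1) (m - 1 - i)) * ((m - i : ℕ) : ℝ) ^ l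

theorem Cs_succ (z : ℝ) (k l m : ℕ) : Cs z k (l + 1) m = Cs z (k + 1) l m - k * Cs z k l m := by
  unfold Cs
  rw [Finset.mul_sum, ← Finset.sum_sub_distrib]
  apply Finset.sum_congr rfl
  intro i hi
  rw [Finset.mem_range] at hi
  have h := pq_add_one ((k : ℝ) + 1) (m - 1 - i)
  have e1 : ((m - i : ℕ) : ℝ) = ((m - 1 - i : ℕ) : ℝ) + 1 := by
    have : m - i = m - 1 - i + 1 := by omega
    rw [this]; push_cast; ring
  have e2 : (((k + 1 : ℕ) : ℝ) + 1) = (k : ℝ) + 1 + 1 := by push_cast; ring
  rw [Nat.factorial_succ, e2, e1]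
  push_cast
  rw [pow_succ]
  linear_combination (-(pq z i) * (k.factorial : ℝ) * (((m - 1 - i : ℕ) : ℝ) + 1) ^ l) * h

theorem Cs_base (z : ℝ) (k : ℕ) {m : ℕ} (hm : 1 ≤ m) :
    Cs z k 0 m = (k.factorial : ℝ) * pq (z + k + 1) (m - 1) := by
  have h := vander z ((k : ℝ) + 1) (m - 1)
  have e : m - 1 + 1 = m := by omega
  rw [e] at h
  rw [add_assoc, ← h, Finset.mul_sum]
  unfold Cs
  apply Finset.sum_congr rfl
  intro i _
  ring

theorem base_tendsto {z : ℝ} (hz : 0 < z) (k : ℕ) :
    Tendsto (fun m : ℕ => (k.factorial : ℝ) * pq (z + k + 1) (m - 1) / ((m : ℝ) ^ (k + 1) * pq z m))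
      atTop (𝓝 (1 / (z * pq (z + 1) k))) := by
  induction k with
  | zero =>
    apply tendsto_const_nhds.congr'
    filter_upwards [eventually_ge_atTop 1] with m hm
    obtain ⟨n, rfl⟩ : ∃ n, m = n + 1 := ⟨m - 1, by omega⟩
    have h := pq_shift z n
    have hp := pq_pos hz (n + 1)
    have hn : (0 : ℝ) < (n : ℝ) + 1 := by positivity
    simp only [pq_zero, Nat.factorial_zero, Nat.cast_one, Nat.cast_zero, add_zero, one_mul, mul_one,
      Nat.add_sub_cancel, zero_add, pow_one]
    push_cast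
    rw [div_eq_div_iff (by positivity) (by positivity)]
    linear_combination h
  | succ k ih =>
    have h1 : Tendsto (fun m : ℕ => ((z + k) * (1 / (m : ℝ)) + 1)) atTop (𝓝 ((z + k) * 0 + 1)) :=
      (tendsto_one_div_atTop_nhds_zero_nat.const_mul _).add_const _
    have h2 := (ih.mul (tendsto_const_nhds (x := ((k : ℝ) + 1) / (z + k + 1)))).mul h1
    have e : 1 / (z * pq (z + 1) k) * (((k : ℝ) + 1) / (z + k + 1)) * ((z + k) * 0 + 1)
        = 1 / (z * pq (z + 1) (k + 1)) := by
      rw [pq_succ]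
      have hp := pq_pos (by linarith : 0 < z + 1) k
      have hk : (0 : ℝ) ≤ k := Nat.cast_nonneg k
      have h3 : 0 < z + k + 1 := by linarith
      have h4 : 0 < z + 1 + k := by linarith
      field_simp
      ring
    rw [e] at h2
    apply h2.congr'
    filter_upwards [eventually_ge_atTop 1] with m hm
    have hm' : (0 : ℝ) < m := by exact_mod_cast (by omega : 0 < m)
    have hk : (0 : ℝ) ≤ k := Nat.cast_nonneg k
    have h3 : 0 < z + k + 1 := by linarith
    have hp := pq_pos hz m
    have h5 := pq_add_one (z + k + 1) (m - 1)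
    have e1 : ((m - 1 : ℕ) : ℝ) = m - 1 := by rw [Nat.cast_sub hm]; simp
    have e2 : z + ((k + 1 : ℕ) : ℝ) + 1 = z + k + 1 + 1 := by push_cast; ring
    rw [e2, Nat.factorial_succ]
    have h6 : pq (z + k + 1 + 1) (m - 1) = pq (z + k + 1) (m - 1) * (z + k + m) / (z + k + 1) := by
      rw [eq_div_iff h3.ne']
      rw [e1] at h5
      linear_combination h5
    rw [h6]
    push_cast
    field_simp
    ring

theorem Cs_tendsto {z : ℝ} (hz : 0 < z) (l : ℕ) : ∀ k : ℕ,
    Tendsto (fun m : ℕ => Cs z k l m / ((m : ℝ) ^ (k + l + 1) * pq z m)) atTop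
      (𝓝 (1 / (z * pq (z + 1) (k + l)))) := by
  induction l with
  | zero =>
    intro k
    apply (base_tendsto hz k).congr'
    filter_upwards [eventually_ge_atTop 1] with m hm
    rw [Cs_base z k hm]
  | succ l ih =>
    intro k
    have h1 := ih (k + 1)
    have h2 := (ih k).mul (tendsto_one_div_atTop_nhds_zero_nat (𝕜 := ℝ))
    have h3 := h1.sub (h2.const_mul (k : ℝ))
    have e : 1 / (z * pq (z + 1) (k + 1 + l)) - (k : ℝ) * (1 / (z * pq (z + 1) (k + l)) * 0)
        = 1 / (z * pq (z + 1) (k + (l + 1))) := by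
      have : k + 1 + l = k + (l + 1) := by ring
      rw [this]; ring
    rw [e] at h3
    apply h3.congr'
    filter_upwards [eventually_ge_atTop 1] with m hm
    have hm' : (0 : ℝ) < m := by exact_mod_cast (by omega : 0 < m)
    have hp := pq_pos hz m
    rw [Cs_succ]
    have e1 : k + (l + 1) + 1 = k + l + 1 + 1 := by ring
    have e2 : k + 1 + l + 1 = k + l + 1 + 1 := by ring
    rw [e1, e2, pow_succ]
    field_simp

/-- the normalised weighted sum -/
noncomputable def Av (z : ℝ) (F : ℝ → ℝ) (m : ℕ) : ℝ :=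
  (∑ i ∈ range m, pq z i * F (((m - i : ℕ) : ℝ) / m)) / (m * pq z m)

theorem Av_pow {z : ℝ} (hz : 0 < z) (l : ℕ) :
    Tendsto (Av z fun y => y ^ l) atTop (𝓝 (∫ y in (0:ℝ)..1, y ^ l * (1 - y) ^ (z - 1))) := by
  rw [Pool.Agent.Helper39.HR.beta_int l hz]
  have h := Cs_tendsto hz l 0
  rw [zero_add] at h
  apply h.congr'
  filter_upwards [eventually_ge_atTop 1] with m hm
  have hm' : (0 : ℝ) < m := by exact_mod_cast (by omega : 0 < m)
  have hp := pq_pos hz m
  unfold Av Cs
  have e : ∀ i ∈ range m, pq z i * (((m - i : ℕ) : ℝ) / m) ^ l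
      = (pq z i * (((Nat.factorial 0 : ℕ) : ℝ) * pq (((0 : ℕ) : ℝ) + 1) (m - 1 - i))
        * ((m - i : ℕ) : ℝ) ^ l) / (m : ℝ) ^ l := by
    intro i _
    have : (((0 : ℕ) : ℝ) + 1) = 1 := by norm_num
    rw [this, pq_one, div_pow]
    simp
    ring
  rw [Finset.sum_congr rfl e, ← Finset.sum_div, pow_succ, div_div]
  congr 1
  ring

theorem Av_poly {z : ℝ} (hz : 0 < z) (p : Polynomial ℝ) :
    Tendsto (Av z fun y => p.eval y) atTop
      (𝓝 (∫ y in (0:ℝ)..1, p.eval y * (1 - y) ^ (z - 1))) := by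
  have hint : ∀ q : Polynomial ℝ, IntervalIntegrable (fun y : ℝ => q.eval y * (1 - y) ^ (z - 1))
      volume 0 1 := fun q => (Pool.Agent.Helper39.HR.rpow_int hz).continuousOn_mul
        q.continuous.continuousOn
  induction p using Polynomial.induction_on' with
  | add p q hp hq =>
    have h := hp.add hq
    have e1 : (∫ y in (0:ℝ)..1, (p + q).eval y * (1 - y) ^ (z - 1))
        = (∫ y in (0:ℝ)..1, p.eval y * (1 - y) ^ (z - 1))
          + ∫ y in (0:ℝ)..1, q.eval y * (1 - y) ^ (z - 1) := by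
      rw [← intervalIntegral.integral_add (hint p) (hint q)]
      congr 1
      funext y
      rw [Polynomial.eval_add]; ring
    rw [e1]
    apply h.congr
    intro m
    unfold Av
    rw [← add_div, ← Finset.sum_add_distrib]
    congr 1
    apply Finset.sum_congr rfl
    intro i _
    beta_reduce
    rw [Polynomial.eval_add]; ring
  | monomial n a =>
    have h := (Av_pow hz n).const_mul a
    have e1 : (∫ y in (0:ℝ)..1, (Polynomial.monomial n a).eval y * (1 - y) ^ (z - 1))
        = a * ∫ y in (0:ℝ)..1, y ^ n * (1 - y) ^ (z - 1) := by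
      rw [← intervalIntegral.integral_const_mul]
      congr 1
      funext y
      rw [Polynomial.eval_monomial]; ring
    rw [e1]
    apply h.congr
    intro m
    unfold Av
    rw [← mul_div_assoc, Finset.mul_sum]
    congr 1
    apply Finset.sum_congr rfl
    intro i _
    beta_reduce
    rw [Polynomial.eval_monomial]; ring

end Pool.Agent.Helper24.Br
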