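import Mathlib
import Pool.Agent.Helper24.Br.Defs
import Pool.Agent.Helper24.Br.Lim

/-!
Weighted Riemann sums of continuous functions.
-/

set_option autoImplicit false

open Set Filter Topology MeasureTheory

namespace Pool.Agent.Helper24.Br

open Pool.Agent.Helper22.Half

theorem Av_one_tendsto {z : ℝ} (hz : 0 < z) :
    Tendsto (Av z fun _ => (1 : ℝ)) atTop (𝓝 (∫ y in (0:ℝ)..1, (1 - y) ^ (z - 1))) := by
  have h := Av_pow hz 0
  simpa using h

theorem point_mem {m i : ℕ} (hi : i < m) : ((m - i : ℕ) : ℝ) / m ∈ Icc (0:ℝ) 1 := by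
  have hm : (0:ℝ) < m := by exact_mod_cast (by omega : 0 < m)
  refine ⟨by positivity, ?_⟩
  rw [div_le_one hm]
  exact_mod_cast Nat.sub_le m i

theorem tt_mem {m i : ℕ} (hi : i < m) : tt m i ∈ Icc (0:ℝ) 1 := by
  have hm : (0:ℝ) < m := by exact_mod_cast (by omega : 0 < m)
  have h1 : (1:ℝ) ≤ ((m - i : ℕ) : ℝ) := by exact_mod_cast (by omega : 1 ≤ m - i)
  have h2 : ((m - i : ℕ) : ℝ) ≤ m := by exact_mod_cast Nat.sub_le m i
  unfold tt
  constructor
  · apply div_nonneg <;> linarith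
  · rw [div_le_one (by positivity)]
    linarith

/-- comparison of two weighted sums -/
theorem Av_comp {z : ℝ} (hz : 0 < z) {m : ℕ} {f g : ℕ → ℝ} {ε : ℝ}
    (h : ∀ i < m, |f i - g i| ≤ ε) :
    |(∑ i ∈ Finset.range m, pq z i * f i) / (m * pq z m)
      - (∑ i ∈ Finset.range m, pq z i * g i) / (m * pq z m)| ≤ ε * Av z (fun _ => (1:ℝ)) m := by
  have hp : 0 ≤ (m : ℝ) * pq z m := mul_nonneg (Nat.cast_nonneg m) (pq_pos hz m).le
  rw [← sub_div, ← Finset.sum_sub_distrib, abs_div, abs_of_nonneg hp]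
  unfold Av
  rw [← mul_div_assoc]
  apply div_le_div_of_nonneg_right _ hp
  rw [Finset.mul_sum]
  refine (Finset.abs_sum_le_sum_abs _ _).trans (Finset.sum_le_sum ?_)
  intro i hi
  rw [Finset.mem_range] at hi
  have hq := pq_pos hz i
  rw [← mul_sub, abs_mul, abs_of_pos hq]
  have := mul_le_mul_of_nonneg_left (h i hi) hq.le
  linarith

theorem int_cont {z : ℝ} (hz : 0 < z) {F : ℝ → ℝ} (hF : ContinuousOn F (Icc 0 1)) :
    IntervalIntegrable (fun y : ℝ => F y * (1 - y) ^ (z - 1)) volume 0 1 :=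
  (Pool.Agent.Helper39.HR.rpow_int hz).continuousOn_mul
    (by rw [uIcc_of_le zero_le_one]; exact hF)

theorem int_comp {z : ℝ} (hz : 0 < z) {F G : ℝ → ℝ} (hF : ContinuousOn F (Icc 0 1))
    (hG : ContinuousOn G (Icc 0 1)) {ε : ℝ} (h : ∀ y ∈ Icc (0:ℝ) 1, |F y - G y| ≤ ε) :
    |(∫ y in (0:ℝ)..1, F y * (1 - y) ^ (z - 1)) - ∫ y in (0:ℝ)..1, G y * (1 - y) ^ (z - 1)|
      ≤ ε * ∫ y in (0:ℝ)..1, (1 - y) ^ (z - 1) := by
  rw [← intervalIntegral.integral_sub (int_cont hz hF) (int_cont hz hG),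
    ← intervalIntegral.integral_const_mul]
  refine (intervalIntegral.abs_integral_le_integral_abs zero_le_one).trans ?_
  apply intervalIntegral.integral_mono_on zero_le_one
  · exact ((int_cont hz hF).sub (int_cont hz hG)).abs
  · exact (Pool.Agent.Helper39.HR.rpow_int hz).const_mul ε
  · intro y hy
    have h1 : 0 ≤ (1 - y) ^ (z - 1) := Real.rpow_nonneg (by linarith [hy.2]) _
    rw [← sub_mul, abs_mul, abs_of_nonneg h1]
    exact mul_le_mul_of_nonneg_right (h y hy) h1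

theorem Av_cont {z : ℝ} (hz : 0 < z) {F : ℝ → ℝ} (hF : ContinuousOn F (Icc 0 1)) :
    Tendsto (Av z F) atTop (𝓝 (∫ y in (0:ℝ)..1, F y * (1 - y) ^ (z - 1))) := by
  set A : ℝ := ∫ y in (0:ℝ)..1, (1 - y) ^ (z - 1) with hA
  have hA0 : 0 ≤ A := by
    apply intervalIntegral.integral_nonneg zero_le_one
    intro y hy
    exact Real.rpow_nonneg (by linarith [hy.2]) _
  rw [Metric.tendsto_atTop]
  intro δ hδ
  have hε : 0 < δ / (4 * (A + 1)) := by positivity
  obtain ⟨p, hp⟩ := exists_polynomial_near_of_continuousOn 0 1 F hF _ hε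
  set ε : ℝ := δ / (4 * (A + 1)) with hεd
  have hp' : ∀ y ∈ Icc (0:ℝ) 1, |F y - p.eval y| ≤ ε := fun y hy => by
    rw [abs_sub_comm]; exact (hp y hy).le
  have h1 := (Metric.tendsto_atTop.mp (Av_poly hz p)) (δ / 4) (by positivity)
  have h2 := (Metric.tendsto_atTop.mp (Av_one_tendsto hz)) 1 one_pos
  obtain ⟨N1, hN1⟩ := h1
  obtain ⟨N2, hN2⟩ := h2
  refine ⟨max N1 N2, fun m hm => ?_⟩
  have k1 := hN1 m ((le_max_left _ _).trans hm)
  have k2 := hN2 m ((le_max_right _ _).trans hm)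
  rw [Real.dist_eq] at k1 k2 ⊢
  have k3 : |Av z F m - Av z (fun y => p.eval y) m| ≤ ε * Av z (fun _ => (1:ℝ)) m := by
    unfold Av
    have := Av_comp (m := m) hz (f := fun i => F (((m - i : ℕ) : ℝ) / m))
      (g := fun i => p.eval (((m - i : ℕ) : ℝ) / m)) (ε := ε)
      (fun i hi => hp' _ (point_mem hi))
    unfold Av at this
    exact this
  have k4 := int_comp hz hF p.continuous.continuousOn (ε := ε) hp'
  have k5 : Av z (fun _ => (1:ℝ)) m ≤ A + 1 := by
    have := (abs_lt.mp k2).2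
    linarith
  have hmul : ε * (A + 1) = δ / 4 := by
    rw [hεd]; field_simp
  have k6 : ε * Av z (fun _ => (1:ℝ)) m ≤ δ / 4 := by
    rw [← hmul]; exact mul_le_mul_of_nonneg_left k5 hε.le
  have k7 : ε * A ≤ δ / 4 := by
    rw [← hmul]; exact mul_le_mul_of_nonneg_left (by linarith) hε.le
  rw [← hA] at k4
  calc |Av z F m - ∫ y in (0:ℝ)..1, F y * (1 - y) ^ (z - 1)|
      = |(Av z F m - Av z (fun y => p.eval y) m)
        + (Av z (fun y => p.eval y) m - ∫ y in (0:ℝ)..1, p.eval y * (1 - y) ^ (z - 1))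
        + -((∫ y in (0:ℝ)..1, F y * (1 - y) ^ (z - 1))
          - ∫ y in (0:ℝ)..1, p.eval y * (1 - y) ^ (z - 1))| := by congr 1; ring
    _ ≤ |Av z F m - Av z (fun y => p.eval y) m|
        + |Av z (fun y => p.eval y) m - ∫ y in (0:ℝ)..1, p.eval y * (1 - y) ^ (z - 1)|
        + |(∫ y in (0:ℝ)..1, F y * (1 - y) ^ (z - 1))
          - ∫ y in (0:ℝ)..1, p.eval y * (1 - y) ^ (z - 1)| := by
        refine (abs_add_le _ _).trans ?_
        rw [abs_neg]
        exact add_le_add (abs_add_le _ _) le_rfl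
    _ < δ := by linarith

theorem Av_mid {z : ℝ} (hz : 0 < z) {F : ℝ → ℝ} (hF : ContinuousOn F (Icc 0 1)) :
    Tendsto (fun m : ℕ => (∑ i ∈ Finset.range m, pq z i * F (tt m i)) / (m * pq z m)) atTop
      (𝓝 (∫ y in (0:ℝ)..1, F y * (1 - y) ^ (z - 1))) := by
  set A : ℝ := ∫ y in (0:ℝ)..1, (1 - y) ^ (z - 1) with hA
  have hA0 : 0 ≤ A := by
    apply intervalIntegral.integral_nonneg zero_le_one
    intro y hy
    exact Real.rpow_nonneg (by linarith [hy.2]) _
  have hU : UniformContinuousOn F (Icc 0 1) := isCompact_Icc.uniformContinuousOn_of_continuous hF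
  rw [Metric.uniformContinuousOn_iff] at hU
  rw [Metric.tendsto_atTop]
  intro δ hδ
  have hε : 0 < δ / (2 * (A + 1)) := by positivity
  obtain ⟨η, hη, hU'⟩ := hU _ hε
  set ε : ℝ := δ / (2 * (A + 1)) with hεd
  obtain ⟨N1, hN1⟩ := (Metric.tendsto_atTop.mp (Av_cont hz hF)) (δ / 2) (by positivity)
  obtain ⟨N2, hN2⟩ := (Metric.tendsto_atTop.mp (Av_one_tendsto hz)) 1 one_pos
  obtain ⟨N3, hN3⟩ := exists_nat_gt (1 / η)
  refine ⟨max (max N1 N2) (max N3 1), fun m hm => ?_⟩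
  have hm1 : N1 ≤ m := ((le_max_left _ _).trans (le_max_left _ _)).trans hm
  have hm2 : N2 ≤ m := ((le_max_right _ _).trans (le_max_left _ _)).trans hm
  have hm3 : N3 ≤ m := ((le_max_left _ _).trans (le_max_right _ _)).trans hm
  have hm4 : 1 ≤ m := ((le_max_right _ _).trans (le_max_right _ _)).trans hm
  have hm0 : (0:ℝ) < m := by exact_mod_cast (by omega : 0 < m)
  have k1 := hN1 m hm1
  have k2 := hN2 m hm2
  rw [Real.dist_eq] at k1 k2 ⊢
  have hη' : 1 / (2 * (m:ℝ)) < η := by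
    have h3 : (N3 : ℝ) ≤ m := by exact_mod_cast hm3
    have h4 : 1 / η < m := lt_of_lt_of_le hN3 h3
    rw [div_lt_iff₀ (by positivity)]
    rw [div_lt_iff₀ hη] at h4
    nlinarith
  have k3 : |(∑ i ∈ Finset.range m, pq z i * F (tt m i)) / (m * pq z m) - Av z F m|
      ≤ ε * Av z (fun _ => (1:ℝ)) m := by
    have := Av_comp (m := m) hz (f := fun i => F (tt m i))
      (g := fun i => F (((m - i : ℕ) : ℝ) / m)) (ε := ε) (fun i hi => by
        have h5 := hU' _ (tt_mem hi) _ (point_mem hi) (by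
          rw [Real.dist_eq]
          have e : tt m i - ((m - i : ℕ) : ℝ) / m = -(1 / (2 * (m:ℝ))) := by
            unfold tt
            field_simp
            ring
          rw [e, abs_neg, abs_of_pos (by positivity)]
          exact hη')
        rw [Real.dist_eq] at h5
        exact h5.le)
    unfold Av at this ⊢
    exact this
  have k5 : Av z (fun _ => (1:ℝ)) m ≤ A + 1 := by
    have := (abs_lt.mp k2).2
    linarith
  have hmul : ε * (A + 1) = δ / 2 := by
    rw [hεd]; field_simp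
  have k6 : ε * Av z (fun _ => (1:ℝ)) m ≤ δ / 2 := by
    rw [← hmul]; exact mul_le_mul_of_nonneg_left k5 hε.le
  calc |(∑ i ∈ Finset.range m, pq z i * F (tt m i)) / (m * pq z m)
        - ∫ y in (0:ℝ)..1, F y * (1 - y) ^ (z - 1)|
      = |((∑ i ∈ Finset.range m, pq z i * F (tt m i)) / (m * pq z m) - Av z F m)
        + (Av z F m - ∫ y in (0:ℝ)..1, F y * (1 - y) ^ (z - 1))| := by congr 1; ring
    _ ≤ |(∑ i ∈ Finset.range m, pq z i * F (tt m i)) / (m * pq z m) - Av z F m|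
        + |Av z F m - ∫ y in (0:ℝ)..1, F y * (1 - y) ^ (z - 1)| := abs_add_le _ _
    _ < δ := by linarith

end Pool.Agent.Helper24.Br
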