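import Mathlib
import Pool.Agent.Helper24.Br.Defs
import Pool.Agent.Helper22.Half.CloseA

/-!
MP_16b0ee, project BR, module BR-1: finite sums.
-/

set_option autoImplicit false

open MeasureTheory Set Metric Filter Topology
open scoped Real

namespace Pool.Agent.Helper24.Br

open Pool.Agent.Helper22.Half

theorem Vd_lo (d : ℕ → ℂ) {m i : ℕ} (h : i ≤ m) :
    Vd (-1) d m i = ∑ l ∈ Finset.range (i + 1), d l := by
  unfold Vd
  rw [min_eq_left h]
  apply Finset.sum_congr rfl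
  intro l _
  rw [neg_neg, pq_one, one_mul]

theorem Vd_hi (d : ℕ → ℂ) {m i : ℕ} (h : m ≤ i) :
    Vd (-1) d m i = ∑ l ∈ Finset.range (m + 1), d l := by
  unfold Vd
  rw [min_eq_right h]
  apply Finset.sum_congr rfl
  intro l _
  rw [neg_neg, pq_one, one_mul]

private theorem pqpos {z : ℝ} (hz : 0 < z) (n : ℕ) : 0 < pq z n := by
  induction n with
  | zero => rw [pq_zero]; norm_num
  | succ n ih => rw [pq_succ]; positivity

private theorem re_eq (b : ℝ) : b + 1 - 2 * (-1 : ℂ).re = b + 3 := by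
  rw [Complex.neg_re, Complex.one_re]; ring

private theorem lam_step {b : ℝ} (hb : 0 < b) (n : ℕ) :
    (pq (b + 3) n)⁻¹ = (pq (b + 3) (n + 1))⁻¹ * ((b + 3 + n) / (n + 1)) := by
  rw [pq_succ]
  have h1 := (pqpos (by linarith : 0 < b + 3) n).ne'
  have h2 : (b + 3 + n : ℝ) ≠ 0 := by positivity
  have h3 : (n + 1 : ℝ) ≠ 0 := by positivity
  field_simp

private theorem tele {b : ℝ} (hb : 0 < b) (m J : ℕ) :
    (∑ j ∈ Finset.range J, ((j : ℝ) + 1) * (pq (b + 3) (m + 1 + j))⁻¹)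
      + J * ((pq (b + 3) (m + J))⁻¹ * ((m + J : ℕ) + 1) / (b + 1))
      + (pq (b + 3) (m + J))⁻¹ * ((m + J : ℕ) + 1) * ((m + J : ℕ) + b + 2) / (b * (b + 1))
      = (pq (b + 3) m)⁻¹ * (m + 1) * (m + b + 2) / (b * (b + 1)) := by
  induction J with
  | zero => simp
  | succ J ih =>
    rw [← ih, Finset.sum_range_succ]
    have e1 : m + 1 + J = m + J + 1 := by omega
    have e2 : m + (J + 1) = m + J + 1 := by omega
    rw [e1, e2, lam_step hb (m + J)]
    have h3 : (((m + J : ℕ) : ℝ) + 1) ≠ 0 := by positivity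
    have h4 : (b + 1) ≠ 0 := by positivity
    have h5 : b ≠ 0 := hb.ne'
    generalize (pq (b + 3) (m + J + 1))⁻¹ = L
    push_cast at h3 ⊢
    field_simp
    ring

theorem upper_le {b : ℝ} (hb : 0 < b) (d : ℕ → ℂ) (m J : ℕ) :
    ∑ j ∈ Finset.range J, ((j : ℝ) + 1) * (pq (b + 1 - 2 * (-1 : ℂ).re) (m + 1 + j))⁻¹
      * ‖Vd (-1) d m (m + 1 + j)‖ ^ 2 ≤ Um b d m := by
  rw [re_eq]
  have h1 : ∑ j ∈ Finset.range J, ((j : ℝ) + 1) * (pq (b + 3) (m + 1 + j))⁻¹
      * ‖Vd (-1) d m (m + 1 + j)‖ ^ 2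
      = (∑ j ∈ Finset.range J, ((j : ℝ) + 1) * (pq (b + 3) (m + 1 + j))⁻¹)
        * ‖∑ l ∈ Finset.range (m + 1), d l‖ ^ 2 := by
    rw [Finset.sum_mul]
    apply Finset.sum_congr rfl
    intro j _
    rw [Vd_hi d (by omega : m ≤ m + 1 + j)]
  rw [h1]
  have h2 := tele hb m J
  have h3 := pqpos (by linarith : 0 < b + 3) (m + J)
  have h4 : 0 ≤ (J : ℝ) * ((pq (b + 3) (m + J))⁻¹ * ((m + J : ℕ) + 1) / (b + 1)) := by
    positivity
  have h5 : 0 ≤ (pq (b + 3) (m + J))⁻¹ * ((m + J : ℕ) + 1) * ((m + J : ℕ) + b + 2)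
      / (b * (b + 1)) := by positivity
  have h6 : (m + 1) * (m + b + 2) / (b * (b + 1)) * (pq (b + 3) m)⁻¹
      = (pq (b + 3) m)⁻¹ * (m + 1) * (m + b + 2) / (b * (b + 1)) := by ring
  unfold Um
  rw [h6]
  apply mul_le_mul_of_nonneg_right _ (by positivity)
  linarith

private theorem S_refl {d : ℕ → ℂ} {m : ℕ} (hd : ∀ l ≤ m, d l = d (m - l)) {i : ℕ} (hi : i < m) :
    (∑ l ∈ Finset.range (i + 1), d l) + ∑ l ∈ Finset.range (m - 1 - i + 1), d l
      = ∑ l ∈ Finset.range (m + 1), d l := by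
  have h1 : ∑ l ∈ Finset.range (m - 1 - i + 1), d l
      = ∑ l ∈ Finset.range (m - i), d (i + 1 + l) := by
    have e : m - 1 - i + 1 = m - i := by omega
    rw [e, ← Finset.sum_range_reflect]
    apply Finset.sum_congr rfl
    intro l hl
    rw [Finset.mem_range] at hl
    rw [hd (m - i - 1 - l) (by omega)]
    congr 1
    omega
  have h2 : m + 1 = (i + 1) + (m - i) := by omega
  rw [h1, h2]
  exact (Finset.sum_range_add d (i + 1) (m - i)).symm

theorem lower_ge {b : ℝ} (hb : 0 < b) {d : ℕ → ℂ} {m : ℕ} (hd : ∀ l ≤ m, d l = d (m - l))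
    (w : ℕ → ℝ) (hw : ∀ i < m, w (m - 1 - i) = w i) :
    (∑ i ∈ Finset.range m, w i) ^ 2 * ‖∑ l ∈ Finset.range (m + 1), d l‖ ^ 2
      ≤ 4 * (∑ i ∈ Finset.range m, w i ^ 2 * pq (b + 3) i / ((m - i : ℕ) : ℝ))
        * Pf (-1) b d m := by
  have hz : 0 < b + 3 := by linarith
  -- the symmetrised sum
  have h1 : 2 * ∑ i ∈ Finset.range m, (w i : ℂ) * Vd (-1) d m i
      = ((∑ i ∈ Finset.range m, w i : ℝ) : ℂ) * ∑ l ∈ Finset.range (m + 1), d l := by
    have h2 : ∑ i ∈ Finset.range m, (w i : ℂ) * Vd (-1) d m i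
        = ∑ i ∈ Finset.range m, (w i : ℂ) * Vd (-1) d m (m - 1 - i) := by
      rw [← Finset.sum_range_reflect]
      apply Finset.sum_congr rfl
      intro i hi
      rw [Finset.mem_range] at hi
      rw [hw i hi]
    rw [two_mul]
    conv_lhs => rw [h2]
    conv_lhs =>
      lhs
      rw [← h2]
    rw [← Finset.sum_add_distrib]
    push_cast
    rw [Finset.sum_mul]
    apply Finset.sum_congr rfl
    intro i hi
    rw [Finset.mem_range] at hi
    rw [Vd_lo d (by omega : i ≤ m), Vd_lo d (by omega : m - 1 - i ≤ m), ← mul_add, S_refl hd hi]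
  have h3 : (∑ i ∈ Finset.range m, w i) ^ 2 * ‖∑ l ∈ Finset.range (m + 1), d l‖ ^ 2
      = 4 * ‖∑ i ∈ Finset.range m, (w i : ℂ) * Vd (-1) d m i‖ ^ 2 := by
    have h4 := congrArg (fun z : ℂ => ‖z‖ ^ 2) h1
    simp only [norm_mul, mul_pow, Complex.norm_real, Real.norm_eq_abs, sq_abs] at h4
    rw [← h4]
    norm_num
  rw [h3]
  have h5 : ‖∑ i ∈ Finset.range m, (w i : ℂ) * Vd (-1) d m i‖
      ≤ ∑ i ∈ Finset.range m, |w i| * ‖Vd (-1) d m i‖ := by
    refine (norm_sum_le _ _).trans (le_of_eq ?_)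
    apply Finset.sum_congr rfl
    intro i _
    rw [norm_mul, Complex.norm_real, Real.norm_eq_abs]
  have h6 := Finset.sum_sq_le_sum_mul_sum_of_sq_le_mul (Finset.range m)
    (r := fun i => |w i| * ‖Vd (-1) d m i‖)
    (f := fun i => w i ^ 2 * pq (b + 3) i / ((m - i : ℕ) : ℝ))
    (g := fun i => ((m - i : ℕ) : ℝ) * (pq (b + 3) i)⁻¹ * ‖Vd (-1) d m i‖ ^ 2)
    (fun i _ => by have := pqpos hz i; positivity) (fun i _ => by have := pqpos hz i; positivity)
    (fun i hi => by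
      rw [Finset.mem_range] at hi
      have h7 := (pqpos hz i).ne'
      have h8 : ((m - i : ℕ) : ℝ) ≠ 0 := by
        have : m - i ≠ 0 := by omega
        exact_mod_cast this
      apply le_of_eq
      rw [mul_pow, sq_abs]
      field_simp)
  have h9 : Pf (-1) b d m = ∑ i ∈ Finset.range m,
      ((m - i : ℕ) : ℝ) * (pq (b + 3) i)⁻¹ * ‖Vd (-1) d m i‖ ^ 2 := by
    unfold Pf
    rw [re_eq]
  rw [h9, mul_assoc]
  apply mul_le_mul_of_nonneg_left _ (by norm_num)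
  exact (pow_le_pow_left₀ (norm_nonneg _) h5 2).trans h6

end Pool.Agent.Helper24.Br
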