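import Mathlib
import Pool.Agent.Helper24.Br.Seq
import Pool.Agent.Helper24.Br.Cont

/-!
MP_16b0ee, project BR, module BR-3: comparison of the two forms of an antidiagonal.
-/

set_option autoImplicit false

open MeasureTheory Set Metric Filter Topology
open scoped Real

namespace Pool.Agent.Helper24.Br

open Pool.Agent.Helper22.Half

private theorem tt_refl {m i : ℕ} (hi : i < m) : tt m (m - 1 - i) = 1 - tt m i := by
  have hm : (m : ℝ) ≠ 0 := by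
    have : m ≠ 0 := by omega
    exact_mod_cast this
  unfold tt
  have h1 : m - (m - 1 - i) = i + 1 := by omega
  rw [h1, Nat.cast_sub hi.le]
  push_cast
  field_simp
  ring

private theorem tt_pos {m i : ℕ} (hi : i < m) : 0 < tt m i := by
  have hm : (0:ℝ) < m := by exact_mod_cast (by omega : 0 < m)
  have h1 : (1:ℝ) ≤ ((m - i : ℕ) : ℝ) := by exact_mod_cast (by omega : 1 ≤ m - i)
  unfold tt
  apply div_pos <;> linarith

private theorem tt_le {m i : ℕ} (hi : i < m) : tt m i * m ≤ ((m - i : ℕ) : ℝ) := by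
  have hm : (0:ℝ) < m := by exact_mod_cast (by omega : 0 < m)
  unfold tt
  rw [div_mul_eq_mul_div, div_le_iff₀ (by positivity)]
  nlinarith

/-- the basic comparison for one `m` -/
private theorem basic {b : ℝ} (hb : 0 < b) {ρ : ℝ → ℝ}
    (hsym : ∀ t ∈ Icc (0:ℝ) 1, ρ (1 - t) = ρ t) {m : ℕ} (hm : 1 ≤ m) {d : ℕ → ℂ}
    (hd : ∀ l ≤ m, d l = d (m - l)) :
    ((∑ i ∈ Finset.range m, pq (1:ℝ) i * (tt m i * (1 - tt m i) * ρ (tt m i))) / (m * pq (1:ℝ) m)) ^ 2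
        * Um b d m
      ≤ 4 * ((m + 1) * (m + b + 2) / (b * (b + 1)) / (m : ℝ) ^ 2)
        * ((∑ i ∈ Finset.range m, pq (b + 3) i * (tt m i * (1 - tt m i) ^ 2 * ρ (tt m i) ^ 2))
          / (m * pq (b + 3) m)) * Pf (-1) b d m := by
  have hz : 0 < b + 3 := by linarith
  have hm0 : (0:ℝ) < m := by exact_mod_cast (by omega : 0 < m)
  have hpm := pq_pos hz m
  have hP : 0 ≤ Pf (-1) b d m := Pf_nonneg (by simp; linarith) d m
  set w : ℕ → ℝ := fun i => tt m i * (1 - tt m i) * ρ (tt m i) with hw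
  have hws : ∀ i < m, w (m - 1 - i) = w i := by
    intro i hi
    simp only [hw]
    rw [tt_refl hi, hsym _ (tt_mem hi)]
    ring
  have h1 := lower_ge hb hd w hws
  have h2 : ∑ i ∈ Finset.range m, w i ^ 2 * pq (b + 3) i / ((m - i : ℕ) : ℝ)
      ≤ (∑ i ∈ Finset.range m, pq (b + 3) i * (tt m i * (1 - tt m i) ^ 2 * ρ (tt m i) ^ 2)) / m := by
    rw [Finset.sum_div]
    apply Finset.sum_le_sum
    intro i hi
    rw [Finset.mem_range] at hi
    have h3 := tt_pos hi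
    have h4 := tt_le hi
    have h5 := pq_pos hz i
    have h6 : (0:ℝ) < ((m - i : ℕ) : ℝ) := by exact_mod_cast (by omega : 0 < m - i)
    rw [div_le_div_iff₀ h6 hm0]
    simp only [hw]
    have h7 : 0 ≤ tt m i * (1 - tt m i) ^ 2 * ρ (tt m i) ^ 2 * pq (b + 3) i := by positivity
    calc (tt m i * (1 - tt m i) * ρ (tt m i)) ^ 2 * pq (b + 3) i * m
        = tt m i * (1 - tt m i) ^ 2 * ρ (tt m i) ^ 2 * pq (b + 3) i * (tt m i * m) := by ring
      _ ≤ tt m i * (1 - tt m i) ^ 2 * ρ (tt m i) ^ 2 * pq (b + 3) i * ((m - i : ℕ) : ℝ) :=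
          mul_le_mul_of_nonneg_left h4 h7
      _ = _ := by ring
  have h3 : (∑ i ∈ Finset.range m, w i) ^ 2 * ‖∑ l ∈ Finset.range (m + 1), d l‖ ^ 2
      ≤ 4 * ((∑ i ∈ Finset.range m, pq (b + 3) i * (tt m i * (1 - tt m i) ^ 2 * ρ (tt m i) ^ 2)) / m)
        * Pf (-1) b d m :=
    h1.trans (mul_le_mul_of_nonneg_right (mul_le_mul_of_nonneg_left h2 (by norm_num)) hP)
  have h4 : (∑ i ∈ Finset.range m, pq (1:ℝ) i * (tt m i * (1 - tt m i) * ρ (tt m i)))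
      = ∑ i ∈ Finset.range m, w i := by
    apply Finset.sum_congr rfl
    intro i _
    rw [pq_one, one_mul]
  rw [h4, pq_one, mul_one]
  unfold Um
  set S := ∑ i ∈ Finset.range m, w i
  set G := ‖∑ l ∈ Finset.range (m + 1), d l‖ ^ 2
  set R := ∑ i ∈ Finset.range m, pq (b + 3) i * (tt m i * (1 - tt m i) ^ 2 * ρ (tt m i) ^ 2)
  set c := ((m:ℝ) + 1) * (m + b + 2) / (b * (b + 1)) with hc
  have hc0 : 0 ≤ c := by positivity
  have h5 : 0 ≤ c * (pq (b + 3) m)⁻¹ / (m:ℝ) ^ 2 := by positivity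
  have h6 := mul_le_mul_of_nonneg_left h3 h5
  calc (S / m) ^ 2 * (c * (pq (b + 3) m)⁻¹ * G)
      = c * (pq (b + 3) m)⁻¹ / (m:ℝ) ^ 2 * (S ^ 2 * G) := by
        field_simp
    _ ≤ c * (pq (b + 3) m)⁻¹ / (m:ℝ) ^ 2 * (4 * (R / m) * Pf (-1) b d m) := h6
    _ = 4 * (c / (m:ℝ) ^ 2) * (R / (m * pq (b + 3) m)) * Pf (-1) b d m := by
        field_simp

private theorem lim_c {b : ℝ} (hb : 0 < b) :
    Tendsto (fun m : ℕ => ((m:ℝ) + 1) * (m + b + 2) / (b * (b + 1)) / (m : ℝ) ^ 2) atTop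
      (𝓝 (1 / (b * (b + 1)))) := by
  have h0 := tendsto_one_div_atTop_nhds_zero_nat (𝕜 := ℝ)
  have h1 : Tendsto (fun m : ℕ => (1 + 1 / (m:ℝ)) * (1 + (b + 2) * (1 / (m:ℝ))) / (b * (b + 1)))
      atTop (𝓝 ((1 + 0) * (1 + (b + 2) * 0) / (b * (b + 1)))) :=
    ((h0.const_add 1).mul ((h0.const_mul (b + 2)).const_add 1)).div_const _
  have e : ((1:ℝ) + 0) * (1 + (b + 2) * 0) / (b * (b + 1)) = 1 / (b * (b + 1)) := by ring
  rw [e] at h1
  apply h1.congr'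
  filter_upwards [eventually_ge_atTop 1] with m hm
  have hm0 : (0:ℝ) < m := by exact_mod_cast (by omega : 0 < m)
  field_simp
  ring

theorem ratio {b : ℝ} (hb : 0 < b) {ρ : ℝ → ℝ} (hρ : ContinuousOn ρ (Icc 0 1))
    (hsym : ∀ t ∈ Icc (0:ℝ) 1, ρ (1 - t) = ρ t) {κ : ℝ} (hκ : 0 ≤ κ)
    (hI : κ * (∫ t in (0:ℝ)..1, t * (1 - t) ^ 2 * ρ t ^ 2 * (1 - t) ^ (b + 2))
      < b * (b + 1) * ((∫ t in (0:ℝ)..1, t * (1 - t) * ρ t) / 2) ^ 2) :
    ∃ (η : ℝ) (m0 : ℕ), 0 < η ∧ η ≤ 1 ∧ ∀ m : ℕ, 1 ≤ m → m0 ≤ m → ∀ d : ℕ → ℂ,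
      (∀ l ≤ m, d l = d (m - l)) → κ * Um b d m ≤ (1 - η) * Pf (-1) b d m := by
  have hz : 0 < b + 3 := by linarith
  have hbb : 0 < b * (b + 1) := by positivity
  have hF1 : ContinuousOn (fun t : ℝ => t * (1 - t) * ρ t) (Icc 0 1) := by fun_prop
  have hF2 : ContinuousOn (fun t : ℝ => t * (1 - t) ^ 2 * ρ t ^ 2) (Icc 0 1) := by fun_prop
  have L1 := Av_mid (one_pos) hF1
  have L2 := Av_mid hz hF2
  have L3 := lim_c hb
  have e1 : (∫ y in (0:ℝ)..1, y * (1 - y) * ρ y * (1 - y) ^ ((1:ℝ) - 1))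
      = ∫ t in (0:ℝ)..1, t * (1 - t) * ρ t := by
    congr 1
    funext y
    rw [sub_self, Real.rpow_zero, mul_one]
  have e2 : b + 3 - 1 = b + 2 := by ring
  rw [e1] at L1
  rw [e2] at L2
  set I1 := ∫ t in (0:ℝ)..1, t * (1 - t) * ρ t
  set I2 := ∫ t in (0:ℝ)..1, t * (1 - t) ^ 2 * ρ t ^ 2 * (1 - t) ^ (b + 2)
  have hI2 : 0 ≤ I2 := by
    apply intervalIntegral.integral_nonneg zero_le_one
    intro t ht
    have h1 := ht.1
    have h2 := Real.rpow_nonneg (sub_nonneg.2 ht.2) (b + 2)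
    positivity
  have hI1 : 0 < I1 ^ 2 := by
    have h1 : 0 ≤ κ * I2 := mul_nonneg hκ hI2
    have h2 : 0 < b * (b + 1) * (I1 / 2) ^ 2 := lt_of_le_of_lt h1 hI
    have h3 : 0 < (I1 / 2) ^ 2 := by
      by_contra h
      have h4 : (I1 / 2) ^ 2 = 0 := le_antisymm (not_lt.1 h) (sq_nonneg _)
      rw [h4, mul_zero] at h2
      exact lt_irrefl _ h2
    have h5 : I1 ^ 2 = 4 * (I1 / 2) ^ 2 := by ring
    rw [h5]
    linarith
  -- the number theta
  set θ : ℝ := 4 * κ * I2 / (b * (b + 1) * I1 ^ 2) with hθ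
  have hθ0 : 0 ≤ θ := by positivity
  have hθ1 : θ < 1 := by
    rw [hθ, div_lt_one (by positivity)]
    have : b * (b + 1) * (I1 / 2) ^ 2 = b * (b + 1) * I1 ^ 2 / 4 := by ring
    rw [this] at hI
    linarith
  have hlim : Tendsto (fun m : ℕ => 4 * κ
      * (((m:ℝ) + 1) * (m + b + 2) / (b * (b + 1)) / (m : ℝ) ^ 2)
      * ((∑ i ∈ Finset.range m, pq (b + 3) i * (tt m i * (1 - tt m i) ^ 2 * ρ (tt m i) ^ 2))
          / (m * pq (b + 3) m))
      - (1 - (1 - θ) / 2) *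
        ((∑ i ∈ Finset.range m, pq (1:ℝ) i * (tt m i * (1 - tt m i) * ρ (tt m i)))
          / (m * pq (1:ℝ) m)) ^ 2) atTop
      (𝓝 (4 * κ * (1 / (b * (b + 1))) * I2 - (1 - (1 - θ) / 2) * I1 ^ 2)) :=
    ((L3.const_mul (4 * κ)).mul L2).sub ((L1.pow 2).const_mul _)
  have hneg : 4 * κ * (1 / (b * (b + 1))) * I2 - (1 - (1 - θ) / 2) * I1 ^ 2 < 0 := by
    have h1 : 4 * κ * (1 / (b * (b + 1))) * I2 = θ * I1 ^ 2 := by
      have hI1' : I1 ≠ 0 := by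
        intro h0
        rw [h0] at hI1
        norm_num at hI1
      rw [hθ]
      field_simp
    rw [h1]
    nlinarith
  have hev1 := hlim.eventually (gt_mem_nhds hneg)
  have hev2 := (L1.pow 2).eventually (lt_mem_nhds hI1)
  obtain ⟨m0, hm0⟩ := eventually_atTop.1 (hev1.and hev2)
  refine ⟨(1 - θ) / 2, m0, by linarith, by linarith, fun m hm hmm d hd => ?_⟩
  obtain ⟨k1, k2⟩ := hm0 m hmm
  have k3 := basic hb hsym hm hd
  have hP : 0 ≤ Pf (-1) b d m := Pf_nonneg (by simp; linarith) d m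
  set s := ((∑ i ∈ Finset.range m, pq (1:ℝ) i * (tt m i * (1 - tt m i) * ρ (tt m i)))
          / (m * pq (1:ℝ) m)) ^ 2
  set q := (((m:ℝ) + 1) * (m + b + 2) / (b * (b + 1)) / (m : ℝ) ^ 2)
  set R := ((∑ i ∈ Finset.range m, pq (b + 3) i * (tt m i * (1 - tt m i) ^ 2 * ρ (tt m i) ^ 2))
          / (m * pq (b + 3) m))
  have k4 : 0 < s := k2
  have k5 : 4 * κ * q * R ≤ (1 - (1 - θ) / 2) * s := by linarith
  have k6 : s * (κ * Um b d m) ≤ s * ((1 - (1 - θ) / 2) * Pf (-1) b d m) := by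
    calc s * (κ * Um b d m) = κ * (s * Um b d m) := by ring
      _ ≤ κ * (4 * q * R * Pf (-1) b d m) := mul_le_mul_of_nonneg_left k3 hκ
      _ = 4 * κ * q * R * Pf (-1) b d m := by ring
      _ ≤ (1 - (1 - θ) / 2) * s * Pf (-1) b d m := mul_le_mul_of_nonneg_right k5 hP
      _ = _ := by ring
  exact le_of_mul_le_mul_left k6 k4

private theorem one_m {b : ℝ} (hb : 0 < b) {m : ℕ} (hm : 1 ≤ m) : ∃ C : ℝ, 0 ≤ C ∧ ∀ d : ℕ → ℂ,
    (∀ l ≤ m, d l = d (m - l)) → Um b d m ≤ C * Pf (-1) b d m := by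
  have hz : 0 < b + 3 := by linarith
  have hm0 : (0:ℝ) < m := by exact_mod_cast (by omega : 0 < m)
  have hpm := pq_pos hz m
  set D := ∑ i ∈ Finset.range m, (1:ℝ) ^ 2 * pq (b + 3) i / ((m - i : ℕ) : ℝ) with hD
  have hD0 : 0 ≤ D := by
    apply Finset.sum_nonneg
    intro i _
    have := pq_pos hz i
    positivity
  refine ⟨((m:ℝ) + 1) * (m + b + 2) / (b * (b + 1)) * (pq (b + 3) m)⁻¹ * (4 * D / (m:ℝ) ^ 2),
    by positivity, fun d hd => ?_⟩
  have h1 := lower_ge hb hd (fun _ => 1) (fun _ _ => rfl)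
  rw [← hD] at h1
  simp only [Finset.sum_const, Finset.card_range, nsmul_eq_mul, mul_one] at h1
  unfold Um
  have h2 : ‖∑ l ∈ Finset.range (m + 1), d l‖ ^ 2 ≤ 4 * D / (m:ℝ) ^ 2 * Pf (-1) b d m := by
    rw [div_mul_eq_mul_div, le_div_iff₀ (by positivity)]
    linarith
  have h3 : 0 ≤ ((m:ℝ) + 1) * (m + b + 2) / (b * (b + 1)) * (pq (b + 3) m)⁻¹ := by positivity
  have h4 := mul_le_mul_of_nonneg_left h2 h3
  linarith

theorem crude {b : ℝ} (hb : 0 < b) : ∃ C1 : ℝ, 0 ≤ C1 ∧ ∀ m : ℕ, 1 ≤ m → ∀ d : ℕ → ℂ,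
    (∀ l ≤ m, d l = d (m - l)) → Um b d m ≤ C1 * Pf (-1) b d m := by
  have hbb : 0 < b * (b + 1) := by positivity
  set I1 := ∫ t in (0:ℝ)..1, t * (1 - t) * (1:ℝ) with hI1
  set I2 := ∫ t in (0:ℝ)..1, t * (1 - t) ^ 2 * (1:ℝ) ^ 2 * (1 - t) ^ (b + 2) with hI2
  have hI1v : I1 = 1 / 6 := by
    rw [hI1]
    have e : (fun t : ℝ => t * (1 - t) * (1:ℝ)) = fun t => t - t ^ 2 := by
      funext t; ring
    rw [e, intervalIntegral.integral_sub (by simp) (by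
      apply Continuous.intervalIntegrable; fun_prop)]
    rw [integral_id, integral_pow]
    norm_num
  have hI20 : 0 ≤ I2 := by
    apply intervalIntegral.integral_nonneg zero_le_one
    intro t ht
    have h1 := ht.1
    have h2 := Real.rpow_nonneg (sub_nonneg.2 ht.2) (b + 2)
    positivity
  set κ : ℝ := b * (b + 1) * (I1 / 2) ^ 2 / (I2 + 1) with hκ
  have hκ0 : 0 < κ := by
    rw [hκ, hI1v]
    positivity
  obtain ⟨η, m0, hη0, hη1, h⟩ := ratio hb (ρ := fun _ => 1) continuousOn_const (fun _ _ => rfl)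
    hκ0.le (by
      rw [← hI1, ← hI2]
      have h1 : κ * (I2 + 1) = b * (b + 1) * (I1 / 2) ^ 2 := by
        rw [hκ]; field_simp
      rw [← h1]
      nlinarith)
  have hex : ∀ m : ℕ, ∃ C : ℝ, 0 ≤ C ∧ (1 ≤ m → ∀ d : ℕ → ℂ,
      (∀ l ≤ m, d l = d (m - l)) → Um b d m ≤ C * Pf (-1) b d m) := by
    intro m
    by_cases hm : 1 ≤ m
    · obtain ⟨C, hC, h2⟩ := one_m hb hm
      exact ⟨C, hC, fun _ => h2⟩
    · exact ⟨0, le_rfl, fun h3 => absurd h3 hm⟩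
  choose C hC hC2 using hex
  have hS : 0 ≤ ∑ m ∈ Finset.range m0, C m := Finset.sum_nonneg fun m _ => hC m
  refine ⟨∑ m ∈ Finset.range m0, C m + 1 / κ, by positivity, fun m hm d hd => ?_⟩
  have hP : 0 ≤ Pf (-1) b d m := Pf_nonneg (by simp; linarith) d m
  by_cases hmm : m0 ≤ m
  · have h1 := h m hm hmm d hd
    have h2 : κ * Um b d m ≤ Pf (-1) b d m := by nlinarith
    have h3 : Um b d m ≤ 1 / κ * Pf (-1) b d m := by
      rw [one_div, ← div_eq_inv_mul, le_div_iff₀ hκ0]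
      linarith
    have h4 : 0 ≤ (∑ m ∈ Finset.range m0, C m) * Pf (-1) b d m := mul_nonneg hS hP
    linarith
  · have h1 := hC2 m hm d hd
    have h2 : C m ≤ ∑ m ∈ Finset.range m0, C m :=
      Finset.single_le_sum (fun i _ => hC i) (Finset.mem_range.2 (not_le.1 hmm))
    have h3 := mul_le_mul_of_nonneg_right h2 hP
    have h4 : 0 ≤ 1 / κ * Pf (-1) b d m := by positivity
    linarith

end Pool.Agent.Helper24.Br
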