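import Mathlib
import Pool.Agent.Helper24.Br.Defs
import Pool.Agent.Helper24.Br.Ratio

/-!
MP_16b0ee, project BR, module 4: the optimal weight `1 / (t ^ (b + 3) + (1 - t) ^ (b + 3))` and
the integral identities which bring out the constant `Th b`.
-/

set_option autoImplicit false

open MeasureTheory Set Metric Filter Topology

namespace Pool.Agent.Helper24.Br

open Pool.Agent.Helper22.Half

/-- the denominator of the weight -/
noncomputable def oden (b t : ℝ) : ℝ := t ^ (b + 3) + (1 - t) ^ (b + 3)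

theorem oden_pos {b : ℝ} {t : ℝ} (ht : t ∈ Icc (0:ℝ) 1) : 0 < oden b t := by
  unfold oden
  rcases eq_or_lt_of_le ht.1 with h | h
  · have h1 : 0 < 1 - t := by rw [← h]; norm_num
    have h2 : 0 ≤ t ^ (b + 3) := Real.rpow_nonneg ht.1 _
    have h3 : 0 < (1 - t) ^ (b + 3) := Real.rpow_pos_of_pos h1 _
    linarith
  · have h2 : 0 < t ^ (b + 3) := Real.rpow_pos_of_pos h _
    have h3 : 0 ≤ (1 - t) ^ (b + 3) := Real.rpow_nonneg (by linarith [ht.2]) _
    linarith

theorem oden_symm (b t : ℝ) : oden b (1 - t) = oden b t := by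
  unfold oden
  rw [sub_sub_cancel, add_comm]

theorem oden_cont {b : ℝ} (hb : 0 < b) : Continuous (oden b) := by
  unfold oden
  exact (continuous_id.rpow_const (fun _ => Or.inr (by linarith))).add
    ((continuous_const.sub continuous_id).rpow_const (fun _ => Or.inr (by linarith)))

theorem orho_cont {b : ℝ} (hb : 0 < b) :
    ContinuousOn (fun t => 1 / oden b t) (Icc (0:ℝ) 1) :=
  continuousOn_const.div (oden_cont hb).continuousOn (fun _ ht => (oden_pos ht).ne')

theorem opt {b κ : ℝ} (hb : 0 < b) (hκ : 0 ≤ κ) (h : κ < Th b) :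
    ∃ (η : ℝ) (m0 : ℕ), 0 < η ∧ η ≤ 1 ∧ ∀ m : ℕ, 1 ≤ m → m0 ≤ m → ∀ d : ℕ → ℂ,
      (∀ l ≤ m, d l = d (m - l)) → κ * Um b d m ≤ (1 - η) * Pf (-1) b d m := by
  have hρ := orho_cont hb
  refine ratio hb hρ (fun t _ => by simp only [oden_symm]) hκ ?_
  set I1 : ℝ := ∫ t in (0:ℝ)..1, t * (1 - t) * (1 / oden b t) with hI1
  -- the two half integrals
  have hcA : ContinuousOn (fun t : ℝ => t * (1 - t) * (1 - t) ^ (b + 3) * (1 / oden b t) ^ 2)
      (Icc (0:ℝ) 1) := by
    have c1 : ContinuousOn (fun t : ℝ => t * (1 - t) * (1 - t) ^ (b + 3)) (Icc (0:ℝ) 1) := by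
      have : Continuous (fun t : ℝ => t * (1 - t) * (1 - t) ^ (b + 3)) :=
        (continuous_id.mul (continuous_const.sub continuous_id)).mul
          ((continuous_const.sub continuous_id).rpow_const (fun _ => Or.inr (by linarith)))
      exact this.continuousOn
    exact c1.mul (hρ.pow 2)
  have hcB : ContinuousOn (fun t : ℝ => t * (1 - t) * t ^ (b + 3) * (1 / oden b t) ^ 2)
      (Icc (0:ℝ) 1) := by
    have c1 : ContinuousOn (fun t : ℝ => t * (1 - t) * t ^ (b + 3)) (Icc (0:ℝ) 1) := by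
      have : Continuous (fun t : ℝ => t * (1 - t) * t ^ (b + 3)) :=
        (continuous_id.mul (continuous_const.sub continuous_id)).mul
          (continuous_id.rpow_const (fun _ => Or.inr (by linarith)))
      exact this.continuousOn
    exact c1.mul (hρ.pow 2)
  have hcC : ContinuousOn (fun t : ℝ => t * (1 - t) * (1 / oden b t)) (Icc (0:ℝ) 1) := by
    have c1 : ContinuousOn (fun t : ℝ => t * (1 - t)) (Icc (0:ℝ) 1) := by
      have : Continuous (fun t : ℝ => t * (1 - t)) :=
        continuous_id.mul (continuous_const.sub continuous_id)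
      exact this.continuousOn
    exact c1.mul hρ
  have hiA := hcA.intervalIntegrable_of_Icc (μ := volume) zero_le_one
  have hiB := hcB.intervalIntegrable_of_Icc (μ := volume) zero_le_one
  have hiC := hcC.intervalIntegrable_of_Icc (μ := volume) zero_le_one
  set A : ℝ := ∫ t in (0:ℝ)..1, t * (1 - t) * (1 - t) ^ (b + 3) * (1 / oden b t) ^ 2 with hA
  set B : ℝ := ∫ t in (0:ℝ)..1, t * (1 - t) * t ^ (b + 3) * (1 / oden b t) ^ 2 with hB
  have hAB : A = B := by
    rw [hA, hB]
    have e := intervalIntegral.integral_comp_sub_left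
      (fun t : ℝ => t * (1 - t) * t ^ (b + 3) * (1 / oden b t) ^ 2) (a := 0) (b := 1) (1:ℝ)
    rw [sub_self, sub_zero] at e
    rw [← e]
    refine intervalIntegral.integral_congr (fun t _ => ?_)
    simp only [oden_symm, sub_sub_cancel]
    ring
  have hsum : A + B = I1 := by
    rw [hA, hB, hI1, ← intervalIntegral.integral_add hiA hiB]
    refine intervalIntegral.integral_congr (fun t ht => ?_)
    rw [uIcc_of_le zero_le_one] at ht
    have hp := oden_pos (b := b) ht
    have hne : oden b t ≠ 0 := hp.ne'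
    have hd : (1 - t) ^ (b + 3) = oden b t - t ^ (b + 3) := by unfold oden; ring
    show t * (1 - t) * (1 - t) ^ (b + 3) * (1 / oden b t) ^ 2
      + t * (1 - t) * t ^ (b + 3) * (1 / oden b t) ^ 2 = t * (1 - t) * (1 / oden b t)
    rw [hd]
    field_simp
    ring
  have hI2 : (∫ t in (0:ℝ)..1, t * (1 - t) ^ 2 * (1 / oden b t) ^ 2 * (1 - t) ^ (b + 2)) = A := by
    rw [hA]
    refine intervalIntegral.integral_congr (fun t ht => ?_)
    rw [uIcc_of_le zero_le_one] at ht
    have h1 : (0:ℝ) ≤ 1 - t := by linarith [ht.2]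
    have e : (1 - t) ^ (b + 3) = (1 - t) ^ (b + 2) * (1 - t) := by
      have : b + 3 = (b + 2) + 1 := by ring
      rw [this, Real.rpow_add_one' h1 (by linarith)]
    show t * (1 - t) ^ 2 * (1 / oden b t) ^ 2 * (1 - t) ^ (b + 2)
      = t * (1 - t) * (1 - t) ^ (b + 3) * (1 / oden b t) ^ 2
    rw [e]
    ring
  have hTh : Th b = b * (b + 1) / 2 * I1 := by
    unfold Th
    rw [hI1]
    congr 1
    refine intervalIntegral.integral_congr (fun t _ => ?_)
    show t * (1 - t) / (t ^ (b + 3) + (1 - t) ^ (b + 3)) = t * (1 - t) * (1 / oden b t)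
    unfold oden
    rw [mul_one_div]
  have hI1pos : 0 < I1 := by
    have hbb : 0 < b * (b + 1) / 2 := by positivity
    have h1 : 0 < Th b ∨ Th b = 0 ∧ κ < 0 := by
      rcases lt_or_ge 0 (Th b) with h2 | h2
      · exact Or.inl h2
      · exact absurd (lt_of_lt_of_le h h2) (not_lt.mpr hκ)
    rcases h1 with h1 | h1
    · rw [hTh] at h1
      exact (pos_iff_pos_of_mul_pos h1).mp hbb
    · exact absurd h1.2 (not_lt.mpr hκ)
  rw [hI2]
  have hA2 : A = I1 / 2 := by linarith
  rw [hA2]
  rw [hTh] at h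
  have h3 : κ * (I1 / 2) < b * (b + 1) / 2 * I1 * (I1 / 2) :=
    mul_lt_mul_of_pos_right h (by positivity)
  calc κ * (I1 / 2) < b * (b + 1) / 2 * I1 * (I1 / 2) := h3
    _ = b * (b + 1) * (I1 / 2) ^ 2 := by ring

end Pool.Agent.Helper24.Br
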