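import Mathlib
import Pool.Agent.Helper24.Br.Defs
import Pool.Agent.Helper22.Half.Mean
import Pool.Agent.Helper24.Br.Seq
import Pool.Agent.Helper24.Br.Ratio
import Pool.Agent.Helper24.Br.Opt

/-!
The mean of the exponential of minus `H` over circles (closure argument and Parseval).
-/

set_option autoImplicit false

open MeasureTheory Set Metric Filter Topology
open scoped Real

namespace Pool.Agent.Helper24.Br

open Pool.Agent.Helper22.Half
open Pool.Agent.Helper39.Area (Ext)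
open Pool.Agent.Helper22.Marshall (coeff SepHol LogPhi dcoeff GLe coeff_congr parseval_comb)

private theorem sum_Pf_bound {b k : ℝ} (hb : 0 < b) (hk : k ^ 2 < Th b) : ∃ C : ℝ, 0 ≤ C ∧
    ∀ (β H : ℂ → ℂ) (Φ : ℂ → ℂ → ℂ), GLe β k → Ext β → LogPhi β H Φ → ∀ I : ℕ,
    ∑ m ∈ Finset.range I, Pf (-1) b (diagc (EE Φ (-1)) m) m ≤ C := by
  obtain ⟨η, m0, hη, hη1, hopt⟩ := opt hb (sq_nonneg k) hk
  obtain ⟨C1, hC1, hcr⟩ := crude hb
  have hk20 : 0 ≤ k ^ 2 := sq_nonneg k
  obtain ⟨c0, hc0⟩ : ∃ c0 : ℝ, c0 = k ^ 2 * ((b + 2) / (b * (b + 1))) := ⟨_, rfl⟩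
  have hc00 : 0 ≤ c0 := by rw [hc0]; positivity
  have hc1 : 0 ≤ k ^ 2 * C1 := by positivity
  refine ⟨(c0 + k ^ 2 * C1 * Kc c0 (k ^ 2 * C1) m0) / η, ?_, ?_⟩
  · have := Kc_nonneg hc00 hc1 m0
    positivity
  intro β H Φ hG hE hΦ I
  have hσ : 0 < b + 1 - 2 * (-1 : ℂ).re := by
    simp only [Complex.neg_re, Complex.one_re]
    linarith
  -- the upper sums
  obtain ⟨U, hU⟩ : ∃ U : ℕ → ℕ → ℝ, U = fun m I => ∑ j ∈ Finset.range (I - (m + 1)),
      ((j : ℝ) + 1) * (pq (b + 1 - 2 * (-1 : ℂ).re) (m + 1 + j))⁻¹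
        * ‖Vd (-1) (diagc (EE Φ (-1)) m) m (m + 1 + j)‖ ^ 2 := ⟨_, rfl⟩
  have hUle : ∀ m I, U m I ≤ Um b (diagc (EE Φ (-1)) m) m := by
    intro m I
    rw [hU]
    exact upper_le hb _ m _
  apply closure_abs (N := fun m I => k ^ 2 * U m I) (fun m => Pf_nonneg hσ _ m) hc00 hc1
    hη hη1
  · -- the double sum
    intro I
    have h1 := double_fin (S := fun m i => ‖Vd (-1) (diagc (EE Φ (-1)) m) m i‖ ^ 2)
      (lam := fun i => (pq (b + 1 - 2 * (-1 : ℂ).re) i)⁻¹) (κ := k ^ 2)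
      (fun i => (inv_pos.mpr (pq_pos hσ i)).le) (fun i M => area_V hG hE hΦ (-1) i M) I
    rw [← Finset.mul_sum]
    have e1 : ∑ m ∈ Finset.range I, ∑ i ∈ Finset.range I, ((m - i : ℕ) : ℝ)
        * (pq (b + 1 - 2 * (-1 : ℂ).re) i)⁻¹ * ‖Vd (-1) (diagc (EE Φ (-1)) m) m i‖ ^ 2
        = ∑ m ∈ Finset.range I, Pf (-1) b (diagc (EE Φ (-1)) m) m := by
      apply Finset.sum_congr rfl
      intro m hm
      exact lower_eq _ (Finset.mem_range.mp hm)
    have e2 : ∑ m ∈ Finset.range I, ∑ i ∈ Finset.range I, ((i - m : ℕ) : ℝ)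
        * (pq (b + 1 - 2 * (-1 : ℂ).re) i)⁻¹ * ‖Vd (-1) (diagc (EE Φ (-1)) m) m i‖ ^ 2
        = ∑ m ∈ Finset.range I, U m I := by
      apply Finset.sum_congr rfl
      intro m _
      have h3 := upper_eq (fun i => (pq (b + 1 - 2 * (-1 : ℂ).re) i)⁻¹
        * ‖Vd (-1) (diagc (EE Φ (-1)) m) m i‖ ^ 2) m I
      rw [hU]
      simp only [← mul_assoc] at h3 ⊢
      exact h3
    rw [e1, e2] at h1
    exact h1
  · -- m = 0
    intro I
    have h1 := hUle 0 I
    have h2 : Um b (diagc (EE Φ (-1)) 0) 0 = (b + 2) / (b * (b + 1)) := by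
      unfold Um
      rw [Finset.sum_range_one, EE_zero hΦ (-1), pq_zero, norm_one]
      push_cast
      ring
    rw [h2] at h1
    rw [hc0]
    exact mul_le_mul_of_nonneg_left h1 hk20
  · -- m ≥ 1
    intro m hm I
    have h1 := (hUle m I).trans (hcr m hm _ (EE_symm hΦ (-1) m))
    calc k ^ 2 * U m I ≤ k ^ 2 * (C1 * Pf (-1) b (diagc (EE Φ (-1)) m) m) := by gcongr
      _ = _ := by ring
  · intro m
    have : U m (m + 1) = 0 := by
      rw [hU]
      simp
    simp only [this, mul_zero, le_refl]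
  · intro m hm hmm I
    have h1 := hopt m hm hmm _ (EE_symm hΦ (-1) m)
    exact (mul_le_mul_of_nonneg_left (hUle m I) hk20).trans h1

theorem mean_neg {b k : ℝ} (hb : 0 < b) (hk : k ^ 2 < Th b) : ∃ C : ℝ, 0 ≤ C ∧
    ∀ (β H : ℂ → ℂ) (Φ : ℂ → ℂ → ℂ), GLe β k → Ext β → LogPhi β H Φ →
    DifferentiableOn ℂ H (ball 0 1) → ∀ r : ℝ, 0 ≤ r → r < 1 →
    ∫ θ in (-π)..π, ‖Complex.exp ((-1 : ℂ) * H ((r : ℂ) * Complex.exp ((θ : ℂ) * Complex.I)))‖ ^ 2
      ≤ C * (1 - r ^ 2) ^ (-b) := by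
  obtain ⟨C, hC, hsum⟩ := sum_Pf_bound hb hk
  obtain ⟨C1, hC1, hcr⟩ := crude hb
  refine ⟨2 * π * (1 + b * C1 * C), by positivity, ?_⟩
  intro β H Φ hG hE hΦ hH r hr0 hr1
  have hσ : 0 < b + 1 - 2 * (-1 : ℂ).re := by
    simp only [Complex.neg_re, Complex.one_re]
    linarith
  obtain ⟨x, hx⟩ : ∃ x, x = r ^ 2 := ⟨_, rfl⟩
  have hx0 : 0 ≤ x := by rw [hx]; positivity
  have hx1 : x < 1 := by rw [hx]; nlinarith
  have hfd : DifferentiableOn ℂ (fun z => Complex.exp ((-1 : ℂ) * H z)) (ball 0 1) :=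
    (hH.const_mul (-1)).cexp
  have hpar := parseval_comb hfd 0 1 hr0 hr1
  simp only [zero_mul, zero_add, one_mul] at hpar
  -- termwise
  have hone : 1 ≤ (1 - x) ^ (-b) := Real.one_le_rpow_of_pos_of_le_one_of_nonpos (by linarith)
    (by linarith) (by linarith)
  have hterm : ∀ m : ℕ, ‖coeff (fun z => Complex.exp ((-1 : ℂ) * H z)) m‖ ^ 2 * r ^ (2 * m)
      ≤ (if m = 0 then 1 else 0) * (1 - x) ^ (-b)
        + b * C1 * Pf (-1) b (diagc (EE Φ (-1)) m) m * (1 - x) ^ (-b) := by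
    intro m
    have hP := Pf_nonneg hσ (diagc (EE Φ (-1)) m) m
    by_cases hm : m = 0
    · subst hm
      rw [if_pos rfl]
      have hH0 : H 0 = 0 := by
        rw [← hΦ.diag 0 (mem_ball_self one_pos), hΦ.zero_right 0 (mem_ball_self one_pos)]
      have e : ‖coeff (fun z => Complex.exp ((-1 : ℂ) * H z)) 0‖ ^ 2 * r ^ (2 * 0) = 1 := by
        rw [Pool.Agent.Helper22.Marshall.coeff_zero, hH0]
        simp
      rw [e]
      have : 0 ≤ b * C1 * Pf (-1) b (diagc (EE Φ (-1)) 0) 0 * (1 - x) ^ (-b) := by positivity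
      linarith
    · rw [if_neg hm, zero_mul, zero_add]
      have hm1 : 1 ≤ m := by omega
      have hm' : (0 : ℝ) < m := by exact_mod_cast (by omega : 0 < m)
      have h1 := hcr m hm1 _ (EE_symm hΦ (-1) m)
      unfold Um at h1
      rw [EE_diag hΦ (-1) m] at h1
      have p1 := pq_pos (by linarith : 0 < b + 1) m
      have p3 := pq_pos (by linarith : 0 < b + 3) m
      have a1 := pq_add_one (b + 1) m
      have a2 := pq_add_one (b + 2) m
      have e1 : b + 1 + 1 = b + 2 := by ring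
      have e2 : b + 2 + 1 = b + 3 := by ring
      rw [e1] at a1
      rw [e2] at a2
      have a3 : (b + 1) * (b + 2) * pq (b + 3) m = pq (b + 1) m * (b + 1 + m) * (b + 2 + m) := by
        linear_combination (b + 1) * a2 + (b + 2 + m) * a1
      have h3 : ‖coeff (fun z => Complex.exp ((-1 : ℂ) * H z)) m‖ ^ 2
          ≤ b * C1 * Pf (-1) b (diagc (EE Φ (-1)) m) m * pq (b + 1) m := by
        have q0 : 0 < (m + 1) * (m + b + 2) / (b * (b + 1)) * (pq (b + 3) m)⁻¹ := by positivity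
        refine le_of_mul_le_mul_left (h1.trans ?_) q0
        have e3 : (m + 1) * (m + b + 2) / (b * (b + 1)) * (pq (b + 3) m)⁻¹
            * (b * C1 * Pf (-1) b (diagc (EE Φ (-1)) m) m * pq (b + 1) m)
            = C1 * Pf (-1) b (diagc (EE Φ (-1)) m) m * (((m : ℝ) + 1) * (b + 2) / (b + 1 + m)) := by
          have a4 : pq (b + 3) m = pq (b + 1) m * (b + 1 + m) * (b + 2 + m)
              / ((b + 1) * (b + 2)) := by
            rw [eq_div_iff (by positivity)]
            linear_combination a3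
          rw [a4]
          have b1 : 0 < b + 1 + m := by positivity
          have b2 : 0 < b + 2 + m := by positivity
          field_simp
          ring
        rw [e3]
        have h4 : 1 ≤ ((m : ℝ) + 1) * (b + 2) / (b + 1 + m) := by
          rw [le_div_iff₀ (by positivity)]
          nlinarith
        have h5 : 0 ≤ C1 * Pf (-1) b (diagc (EE Φ (-1)) m) m := by positivity
        nlinarith
      have h5 := pow_mul_pq_le hb.le hx0 hx1 m
      have h6 : r ^ (2 * m) = x ^ m := by rw [hx, ← pow_mul]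
      rw [h6]
      calc ‖coeff (fun z => Complex.exp ((-1 : ℂ) * H z)) m‖ ^ 2 * x ^ m
          ≤ (b * C1 * Pf (-1) b (diagc (EE Φ (-1)) m) m * pq (b + 1) m) * x ^ m := by gcongr
        _ = b * C1 * Pf (-1) b (diagc (EE Φ (-1)) m) m * (x ^ m * pq (b + 1) m) := by ring
        _ ≤ b * C1 * Pf (-1) b (diagc (EE Φ (-1)) m) m * (1 - x) ^ (-b) := by gcongr
  have hpos : 0 < (1 - x) ^ (-b) := by linarith
  have hsumle : (1 / (2 * π)) * ∫ θ in (-π)..π,
      ‖Complex.exp ((-1 : ℂ) * H ((r : ℂ) * Complex.exp ((θ : ℂ) * Complex.I)))‖ ^ 2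
      ≤ (1 + b * C1 * C) * (1 - x) ^ (-b) := by
    refine hasSum_le_of_sum_le hpar (fun F => ?_)
    obtain ⟨M, hM⟩ : ∃ M, F ⊆ Finset.range M := F.exists_nat_subset_range
    have hnn : ∀ m : ℕ, 0 ≤ ‖coeff (fun z => Complex.exp ((-1 : ℂ) * H z)) m‖ ^ 2
        * r ^ (2 * m) := by
      intro m; positivity
    calc ∑ m ∈ F, ‖coeff (fun z => Complex.exp ((-1 : ℂ) * H z)) m‖ ^ 2 * r ^ (2 * m)
        ≤ ∑ m ∈ Finset.range M, ‖coeff (fun z => Complex.exp ((-1 : ℂ) * H z)) m‖ ^ 2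
            * r ^ (2 * m) :=
          Finset.sum_le_sum_of_subset_of_nonneg hM (fun m _ _ => hnn m)
      _ ≤ ∑ m ∈ Finset.range M, ((if m = 0 then 1 else 0) * (1 - x) ^ (-b)
        + b * C1 * Pf (-1) b (diagc (EE Φ (-1)) m) m * (1 - x) ^ (-b)) :=
          Finset.sum_le_sum (fun m _ => hterm m)
      _ = (∑ m ∈ Finset.range M, (if m = 0 then (1 : ℝ) else 0)) * (1 - x) ^ (-b)
        + b * C1 * (∑ m ∈ Finset.range M, Pf (-1) b (diagc (EE Φ (-1)) m) m)
          * (1 - x) ^ (-b) := by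
          rw [Finset.sum_add_distrib, ← Finset.sum_mul, ← Finset.sum_mul, ← Finset.mul_sum]
      _ ≤ 1 * (1 - x) ^ (-b) + b * C1 * C * (1 - x) ^ (-b) := by
          have h7 : ∑ m ∈ Finset.range M, (if m = 0 then (1 : ℝ) else 0) ≤ 1 := by
            cases M with
            | zero => simp
            | succ M =>
              rw [Finset.sum_range_succ']
              simp
          have h8 := hsum β H Φ hG hE hΦ M
          gcongr
      _ = _ := by ring
  have hpi := Real.pi_pos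
  have h9 := mul_le_mul_of_nonneg_left hsumle (by positivity : 0 ≤ 2 * π)
  rw [← mul_assoc, mul_one_div_cancel (by positivity), one_mul] at h9
  rw [← hx]
  linarith

end Pool.Agent.Helper24.Br
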