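import Mathlib
import Pool.Agent.Helper24.Br.Inj
import Pool.Agent.Helper24.Br.Mean
import Pool.Agent.Helper22.Half.Disc

/-!
MP_16b0ee, project BR (the mean of the power -2 of the derivative): transfer from the unit disc to
the exterior of the unit disc, module BR-8.
-/

set_option autoImplicit false

open MeasureTheory Set Metric Filter Topology
open scoped Real

namespace Pool.Agent.Helper24.Br

open Pool.Agent.Helper22.Half
open Pool.Agent.Helper39.Area (Ext phi toDisc)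
open Pool.Agent.Helper22.Marshall (coeff SepHol LogPhi dcoeff GLe coeff_congr exists_logPhi
  gLe_one)

/-- the data in the unit disc of a map of the class -/
private theorem disc_data {ψ : ℂ → ℂ} {c : ℂ}
    (hψ : DifferentiableOn ℂ ψ {z : ℂ | 1 < ‖z‖})
    (hinj : Set.InjOn ψ {z : ℂ | 1 < ‖z‖})
    (hc : Tendsto (fun z => ψ z - z) (Bornology.cobounded ℂ) (𝓝 c)) :
    ∃ (β H : ℂ → ℂ) (Φ : ℂ → ℂ → ℂ), Ext β ∧ LogPhi β H Φ ∧ DifferentiableOn ℂ H (ball 0 1) ∧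
      (∀ ζ : ℂ, ζ ≠ 0 → phi β ζ = ψ ζ⁻¹) ∧
      ∀ ζ ∈ ball (0 : ℂ) 1, ζ ≠ 0 → Complex.exp (H ζ) = deriv ψ ζ⁻¹ := by
  have hne : ∀ z : ℂ, 1 < ‖z‖ → deriv ψ z ≠ 0 := fun z hz =>
    deriv_ne_of_inj Pool.Agent.Helper39.Area.isOpen_ext hψ hinj hz
  have hexp : ∀ z : ℂ, 1 < ‖z‖ → Complex.exp ((fun z => Complex.log (deriv ψ z)) z) =
      deriv ψ z := fun z hz => Complex.exp_log (hne z hz)
  obtain ⟨hE, hex⟩ := Pool.Agent.Helper39.Area.ext_data hψ hinj hc hexp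
  have hq : DifferentiableOn ℂ (fun ζ => 1 - ζ ^ 2 * deriv (toDisc c (fun z => ψ z - z)) ζ)
      (ball 0 1) := by
    have h1 := hE.diff.deriv isOpen_ball
    have h2 : DifferentiableOn ℂ (fun ζ : ℂ => ζ ^ 2) (ball 0 1) := by fun_prop
    exact (differentiableOn_const (1 : ℂ)).sub (h2.mul h1)
  obtain ⟨H, hH, hH0, hHe⟩ := exists_log_ball hq (fun z hz => hE.ne z hz) (by simp)
  obtain ⟨Φ, hΦ⟩ := exists_logPhi hE hH.continuousOn hH0 hHe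
  refine ⟨toDisc c (fun z => ψ z - z), H, Φ, hE, hΦ, hH, ?_, ?_⟩
  · intro ζ hζ
    simp only [phi, toDisc]
    rw [if_neg hζ]
    ring
  · intro ζ hζ h0
    rw [hHe ζ hζ, ← hex ζ hζ]
    simp only [toDisc]
    rw [if_neg h0]
    exact Complex.exp_log (hne _ (Pool.Agent.Helper39.Area.inv_mem hζ h0))

/-- the Grunsky inequality in both coordinates -/
private theorem gLe_of {ψ β : ℂ → ℂ} {k : ℝ} (hphi : ∀ ζ : ℂ, ζ ≠ 0 → phi β ζ = ψ ζ⁻¹)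
    (hG : ∀ (i : ℕ) (P : Polynomial ℂ) (a : ℤ → ℂ), P.natDegree ≤ i →
      (∀ z : ℂ, 1 < ‖z‖ → HasSum (fun n : ℤ => a n * z ^ n) (P.eval (ψ z))) →
      ∀ N : ℕ, ∑ n ∈ Finset.range N, (n : ℝ) * ‖a (-(n : ℤ))‖ ^ 2
        ≤ k ^ 2 * ∑ n ∈ Finset.range (i + 1), (n : ℝ) * ‖a (n : ℤ)‖ ^ 2) : GLe β k := by
  intro i P v hP hv M
  obtain ⟨a, ha⟩ : ∃ a : ℤ → ℂ, a = fun n => if n ≤ (i : ℤ) then v ((i : ℤ) - n).toNat else 0 :=
    ⟨_, rfl⟩
  have ha1 : ∀ m : ℕ, a ((i : ℤ) - m) = v m := by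
    intro m
    rw [ha]
    simp only
    rw [if_pos (by omega)]
    congr 1
    omega
  have hinj : Function.Injective (fun m : ℕ => (i : ℤ) - m) := by
    intro m n h
    have h' : (i : ℤ) - m = (i : ℤ) - n := h
    omega
  have hsum : ∀ z : ℂ, 1 < ‖z‖ → HasSum (fun n : ℤ => a n * z ^ n) (P.eval (ψ z)) := by
    intro z hz
    have hz0 : z ≠ 0 := by
      rintro rfl
      simp at hz
      linarith
    have hzi : z⁻¹ ≠ 0 := inv_ne_zero hz0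
    have hzn : ‖z⁻¹‖ < 1 := by
      rw [norm_inv]
      exact inv_lt_one_of_one_lt₀ hz
    have h1 := (hv z⁻¹ hzi hzn).mul_left (z ^ i)
    have e1 : z ^ i * (z⁻¹ ^ i * P.eval (phi β z⁻¹)) = P.eval (ψ z) := by
      rw [hphi _ hzi, inv_inv, ← mul_assoc, ← mul_pow, mul_inv_cancel₀ hz0, one_pow, one_mul]
    rw [e1] at h1
    rw [← hinj.hasSum_iff]
    · refine h1.congr_fun ?_
      intro m
      simp only [Function.comp]
      rw [ha1, zpow_sub₀ hz0, zpow_natCast, zpow_natCast, inv_pow]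
      field_simp
    · intro n hn
      have h2 : ¬ n ≤ (i : ℤ) := by
        intro h3
        apply hn
        exact ⟨((i : ℤ) - n).toNat, by simp only; omega⟩
      rw [ha]
      simp only
      rw [if_neg h2, zero_mul]
  have h1 := hG i P a hP hsum M
  have e1 : ∑ n ∈ Finset.range M, (n : ℝ) * ‖a (-(n : ℤ))‖ ^ 2 =
      ∑ n ∈ Finset.range M, (n : ℝ) * ‖v (i + n)‖ ^ 2 := by
    refine Finset.sum_congr rfl (fun n _ => ?_)
    have := ha1 (i + n)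
    rw [← this]
    congr 4
    push_cast
    ring
  have e2 : ∑ n ∈ Finset.range (i + 1), (n : ℝ) * ‖a (n : ℤ)‖ ^ 2 =
      ∑ m ∈ Finset.range i, ((i - m : ℕ) : ℝ) * ‖v m‖ ^ 2 := by
    rw [← Finset.sum_range_reflect, Finset.sum_range_succ]
    have h0 : ((i + 1 - 1 - i : ℕ) : ℝ) = 0 := by
      have : i + 1 - 1 - i = 0 := by omega
      rw [this]
      simp
    rw [h0, zero_mul, add_zero]
    refine Finset.sum_congr rfl (fun m hm => ?_)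
    have hm' := Finset.mem_range.mp hm
    have h2 : i + 1 - 1 - m = i - m := by omega
    rw [h2, ← ha1 m]
    congr 4
    omega
  rw [e1, e2] at h1
  refine le_trans ?_ h1
  have h3 : ∑ m ∈ Finset.range M, ((m - i : ℕ) : ℝ) * ‖v m‖ ^ 2 ≤
      ∑ m ∈ Finset.range (i + M), ((m - i : ℕ) : ℝ) * ‖v m‖ ^ 2 := by
    apply Finset.sum_le_sum_of_subset_of_nonneg
    · intro m hm
      rw [Finset.mem_range] at hm ⊢
      omega
    · intro m _ _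
      positivity
  refine h3.trans (le_of_eq ?_)
  rw [Finset.sum_range_add]
  have h4 : ∑ m ∈ Finset.range i, ((m - i : ℕ) : ℝ) * ‖v m‖ ^ 2 = 0 := by
    apply Finset.sum_eq_zero
    intro m hm
    have hm' := Finset.mem_range.mp hm
    have : m - i = 0 := by omega
    rw [this]
    simp
  rw [h4, zero_add]
  refine Finset.sum_congr rfl (fun n _ => ?_)
  rw [Nat.add_sub_cancel_left]

/-- the circle integral in both coordinates (as in Helper39/HR/Means.lean) -/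
private theorem transfer_gen (F : ℂ → ℝ) (h : ℂ → ℂ) {R : ℝ} (hR : 1 < R) :
    (∫ θ in (0:ℝ)..(2 * π), F (h ((R : ℂ) * Complex.exp ((θ : ℂ) * Complex.I)))) =
      ∫ θ in (0:ℝ)..(2 * π),
        F (toDisc 0 h (((R⁻¹ : ℝ) : ℂ) * Complex.exp ((θ : ℂ) * Complex.I))) := by
  have hR0 : R ≠ 0 := by linarith
  obtain ⟨k, hk⟩ : ∃ k : ℝ → ℝ, k = fun (θ : ℝ) =>
    F (toDisc 0 h (((R⁻¹ : ℝ) : ℂ) * Complex.exp ((θ : ℂ) * Complex.I))) := ⟨_, rfl⟩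
  have h1 : ∀ θ : ℝ, F (h ((R : ℂ) * Complex.exp ((θ : ℂ) * Complex.I))) = k (-θ) := by
    intro θ
    simp only [hk]
    have hne : ((R⁻¹ : ℝ) : ℂ) * Complex.exp (((-θ : ℝ) : ℂ) * Complex.I) ≠ 0 := by
      apply mul_ne_zero _ (Complex.exp_ne_zero _)
      exact_mod_cast inv_ne_zero hR0
    have h2 : (((R⁻¹ : ℝ) : ℂ) * Complex.exp (((-θ : ℝ) : ℂ) * Complex.I))⁻¹ =
        (R : ℂ) * Complex.exp ((θ : ℂ) * Complex.I) := by
      rw [mul_inv, ← Complex.exp_neg]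
      push_cast
      rw [inv_inv]
      congr 2
      ring
    simp only [toDisc]
    rw [if_neg hne, h2]
  simp_rw [h1]
  rw [intervalIntegral.integral_comp_neg (fun θ => k θ)]
  have hper : Function.Periodic k (2 * π) := by
    intro θ
    simp only [hk]
    have : Complex.exp (((θ + 2 * π : ℝ) : ℂ) * Complex.I) = Complex.exp ((θ : ℂ) * Complex.I) := by
      push_cast
      rw [add_mul, Complex.exp_add, Complex.exp_two_pi_mul_I, mul_one]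
    rw [this]
  have h2 := hper.intervalIntegral_add_eq (-(2 * π)) 0
  have e1 : -(2 * π) + 2 * π = (0:ℝ) := by ring
  have e2 : (0:ℝ) + 2 * π = 2 * π := by ring
  rw [e1, e2] at h2
  rw [neg_zero, h2, hk]

/-- the bound in the exterior domain from the bound in the disc -/
private theorem ext_of_disc {b C : ℝ} {ψ H : ℂ → ℂ}
    (hexp : ∀ ζ ∈ ball (0 : ℂ) 1, ζ ≠ 0 → Complex.exp (H ζ) = deriv ψ ζ⁻¹)
    (hm : ∀ r : ℝ, 0 ≤ r → r < 1 →
      ∫ θ in (-π)..π, ‖Complex.exp ((-1 : ℂ) * H ((r : ℂ) * Complex.exp ((θ : ℂ) * Complex.I)))‖ ^ 2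
        ≤ C * (1 - r ^ 2) ^ (-b)) {R : ℝ} (hR : 1 < R) :
    (1 / (2 * π)) * ∫ θ in (0:ℝ)..(2 * π),
      1 / ‖deriv ψ ((R : ℂ) * Complex.exp ((θ : ℂ) * Complex.I))‖ ^ 2
      ≤ (1 / (2 * π) * C) * (R ^ 2 / (R ^ 2 - 1)) ^ b := by
  have hR0 : 0 < R⁻¹ := by positivity
  have hR1 : R⁻¹ < 1 := inv_lt_one_of_one_lt₀ hR
  have h1 := hm R⁻¹ hR0.le hR1
  rw [transfer_gen (fun w => 1 / ‖w‖ ^ 2) (deriv ψ) hR]
  have e1 : ∀ θ : ℝ, 1 / ‖toDisc 0 (deriv ψ) (((R⁻¹ : ℝ) : ℂ) *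
      Complex.exp ((θ : ℂ) * Complex.I))‖ ^ 2 =
      ‖Complex.exp ((-1 : ℂ) * H (((R⁻¹ : ℝ) : ℂ) * Complex.exp ((θ : ℂ) * Complex.I)))‖ ^ 2 := by
    intro θ
    have hne : ((R⁻¹ : ℝ) : ℂ) * Complex.exp ((θ : ℂ) * Complex.I) ≠ 0 := by
      apply mul_ne_zero _ (Complex.exp_ne_zero _)
      exact_mod_cast hR0.ne'
    have hmem : ((R⁻¹ : ℝ) : ℂ) * Complex.exp ((θ : ℂ) * Complex.I) ∈ ball (0 : ℂ) 1 := by
      rw [mem_ball_zero_iff, norm_mul, Complex.norm_exp_ofReal_mul_I, mul_one, Complex.norm_real,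
        Real.norm_of_nonneg hR0.le]
      exact hR1
    simp only [toDisc]
    rw [if_neg hne, ← hexp _ hmem hne, neg_one_mul, Complex.exp_neg, norm_inv, inv_pow, one_div]
  simp_rw [e1]
  rw [periodic_shift (f := fun ζ => ‖Complex.exp ((-1 : ℂ) * H ζ)‖ ^ 2) R⁻¹, mul_assoc]
  apply mul_le_mul_of_nonneg_left _ (by positivity)
  refine h1.trans (le_of_eq ?_)
  congr 1
  have hx : 0 < 1 - R⁻¹ ^ 2 := by nlinarith
  have e3 : R ^ 2 / (R ^ 2 - 1) = (1 - R⁻¹ ^ 2)⁻¹ := by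
    have h4 : R ^ 2 - 1 ≠ 0 := by nlinarith
    have h5 : R ≠ 0 := by linarith
    have h6 : 1 - R⁻¹ ^ 2 = (R ^ 2 - 1) / R ^ 2 := by
      field_simp
    rw [h6, inv_div]
  rw [e3, Real.rpow_neg hx.le, Real.inv_rpow hx.le]

/-- the exterior version, for the maps with Grunsky constant `k` -/
theorem ext_neg {b k : ℝ} (hb : 0 < b) (hk : k ^ 2 < Th b) : ∃ C : ℝ, ∀ ψ : ℂ → ℂ,
    DifferentiableOn ℂ ψ {z : ℂ | 1 < ‖z‖} →
    Set.InjOn ψ {z : ℂ | 1 < ‖z‖} →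
    (∃ c : ℂ, Tendsto (fun z => ψ z - z) (Bornology.cobounded ℂ) (𝓝 c)) →
    (∀ (i : ℕ) (P : Polynomial ℂ) (a : ℤ → ℂ), P.natDegree ≤ i →
      (∀ z : ℂ, 1 < ‖z‖ → HasSum (fun n : ℤ => a n * z ^ n) (P.eval (ψ z))) →
      ∀ N : ℕ, ∑ n ∈ Finset.range N, (n : ℝ) * ‖a (-(n : ℤ))‖ ^ 2
        ≤ k ^ 2 * ∑ n ∈ Finset.range (i + 1), (n : ℝ) * ‖a (n : ℤ)‖ ^ 2) →
    ∀ R : ℝ, 1 < R →
      (1 / (2 * π)) * ∫ θ in (0:ℝ)..(2 * π),
        1 / ‖deriv ψ ((R : ℂ) * Complex.exp ((θ : ℂ) * Complex.I))‖ ^ 2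
        ≤ C * (R ^ 2 / (R ^ 2 - 1)) ^ b := by
  obtain ⟨C, _, hm⟩ := mean_neg hb hk
  refine ⟨1 / (2 * π) * C, ?_⟩
  intro ψ hψ hinj hc hG R hR
  obtain ⟨c, hc⟩ := hc
  obtain ⟨β, H, Φ, hE, hΦ, hH, hphi, hexp⟩ := disc_data hψ hinj hc
  exact ext_of_disc hexp (hm β H Φ (gLe_of hphi hG) hE hΦ hH) hR

/-- the exterior version, for the whole class -/
theorem ext_all {b : ℝ} (hb : 0 < b) (h1 : 1 < Th b) : ∃ C : ℝ, ∀ ψ : ℂ → ℂ,
    DifferentiableOn ℂ ψ {z : ℂ | 1 < ‖z‖} →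
    Set.InjOn ψ {z : ℂ | 1 < ‖z‖} →
    (∃ c : ℂ, Tendsto (fun z => ψ z - z) (Bornology.cobounded ℂ) (𝓝 c)) →
    ∀ R : ℝ, 1 < R →
      (1 / (2 * π)) * ∫ θ in (0:ℝ)..(2 * π),
        1 / ‖deriv ψ ((R : ℂ) * Complex.exp ((θ : ℂ) * Complex.I))‖ ^ 2
        ≤ C * (R ^ 2 / (R ^ 2 - 1)) ^ b := by
  obtain ⟨C, _, hm⟩ := mean_neg (k := 1) hb (by rw [one_pow]; exact h1)
  refine ⟨1 / (2 * π) * C, ?_⟩
  intro ψ hψ hinj hc R hR
  obtain ⟨c, hc⟩ := hc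
  obtain ⟨β, H, Φ, hE, hΦ, hH, -, hexp⟩ := disc_data hψ hinj hc
  exact ext_of_disc hexp (hm β H Φ (gLe_one hE) hE hΦ hH) hR

end Pool.Agent.Helper24.Br
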