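import Mathlib
import Pool.Agent.Helper24.Br.Inj
import Pool.Agent.Helper39.HR.Means

/-!
MP_16b0ee, project BR: the negative powers between -2 and -1.
-/

set_option autoImplicit false

open MeasureTheory Set Metric Filter Topology
open scoped Real

namespace Pool.Agent.Helper24.Br

open Pool.Agent.Helper22.Half (SigmaLog)
open Pool.Agent.Helper39.Area (toDisc inv_mem isOpen_ext)

/-- the logarithm of the derivative -/
theorem exists_sigmaLog {ψ : ℂ → ℂ}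
    (hψ : DifferentiableOn ℂ ψ {z : ℂ | 1 < ‖z‖})
    (hinj : Set.InjOn ψ {z : ℂ | 1 < ‖z‖})
    (hc : ∃ c : ℂ, Tendsto (fun z => ψ z - z) (Bornology.cobounded ℂ) (𝓝 c)) :
    ∃ h : ℂ → ℂ, SigmaLog ψ h := by
  obtain ⟨c, hc⟩ := hc
  have hne : ∀ z : ℂ, 1 < ‖z‖ → deriv ψ z ≠ 0 := fun z hz => deriv_ne_of_inj isOpen_ext hψ hinj hz
  have hexp : ∀ z : ℂ, 1 < ‖z‖ → Complex.exp ((fun z => Complex.log (deriv ψ z)) z) =
      deriv ψ z := fun z hz => Complex.exp_log (hne z hz)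
  obtain ⟨hE, hex⟩ := Pool.Agent.Helper39.Area.ext_data hψ hinj hc hexp
  have hq : DifferentiableOn ℂ (fun ζ => 1 - ζ ^ 2 * deriv (toDisc c (fun z => ψ z - z)) ζ)
      (ball 0 1) := by
    have h1 := hE.diff.deriv isOpen_ball
    have h2 : DifferentiableOn ℂ (fun ζ : ℂ => ζ ^ 2) (ball 0 1) := by fun_prop
    exact (differentiableOn_const (1 : ℂ)).sub (h2.mul h1)
  obtain ⟨H, hH, hH0, hHe⟩ := exists_log_ball hq (fun z hz => hE.ne z hz) (by simp)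
  have hz0 : ∀ z : ℂ, 1 < ‖z‖ → z ≠ 0 := by
    rintro z hz rfl
    simp at hz
    linarith
  have hzb : ∀ z : ℂ, 1 < ‖z‖ → z⁻¹ ∈ ball (0 : ℂ) 1 := by
    intro z hz
    rw [mem_ball_zero_iff, norm_inv]
    exact inv_lt_one_of_one_lt₀ hz
  refine ⟨fun z => H z⁻¹, ⟨hψ, hinj, ⟨c, hc⟩, ?_, ?_, ?_⟩⟩
  · intro z hz
    have h1 : DifferentiableAt ℂ H z⁻¹ := hH.differentiableAt (isOpen_ball.mem_nhds (hzb z hz))
    exact (h1.comp z (differentiableAt_inv (hz0 z hz))).differentiableWithinAt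
  · intro z hz
    have h0 := inv_ne_zero (hz0 z hz)
    rw [hHe _ (hzb z hz), ← hex _ (hzb z hz)]
    simp only [toDisc]
    rw [if_neg h0, inv_inv]
    exact Complex.exp_log (hne _ hz)
  · have h1 : ContinuousAt H 0 := (hH.differentiableAt (ball_mem_nhds 0 one_pos)).continuousAt
    have h2 := h1.tendsto
    rw [hH0] at h2
    exact h2.comp tendsto_inv₀_cobounded

/-- interpolation between the powers -2 and -1 -/
theorem interp {b : ℝ} (hall : ∃ C : ℝ, ∀ ψ : ℂ → ℂ,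
    DifferentiableOn ℂ ψ {z : ℂ | 1 < ‖z‖} →
    Set.InjOn ψ {z : ℂ | 1 < ‖z‖} →
    (∃ c : ℂ, Tendsto (fun z => ψ z - z) (Bornology.cobounded ℂ) (𝓝 c)) →
    ∀ R : ℝ, 1 < R →
      (1 / (2 * π)) * ∫ θ in (0:ℝ)..(2 * π),
        1 / ‖deriv ψ ((R : ℂ) * Complex.exp ((θ : ℂ) * Complex.I))‖ ^ 2
        ≤ C * (R ^ 2 / (R ^ 2 - 1)) ^ b) :
    ∃ C : ℝ, ∀ t : ℝ, -2 ≤ t → t ≤ -1 → ∀ ψ : ℂ → ℂ,
      DifferentiableOn ℂ ψ {z : ℂ | 1 < ‖z‖} →
      Set.InjOn ψ {z : ℂ | 1 < ‖z‖} →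
      (∃ c : ℂ, Tendsto (fun z => ψ z - z) (Bornology.cobounded ℂ) (𝓝 c)) →
      ∀ R : ℝ, 1 < R →
        (1 / (2 * π)) * ∫ θ in (0:ℝ)..(2 * π),
          ‖deriv ψ ((R : ℂ) * Complex.exp ((θ : ℂ) * Complex.I))‖ ^ t
          ≤ C * (R ^ 2 / (R ^ 2 - 1)) ^ (4 / 9 + (-1 - t) * (b - 4 / 9)) := by
  obtain ⟨C1, hC1⟩ := hall
  obtain ⟨C2, hC20, hC2⟩ := Pool.Agent.Helper39.HR.means9
  refine ⟨|C1| + C2, ?_⟩
  intro t ht ht1 ψ hψ hinj hc R hR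
  obtain ⟨h, Hh⟩ := exists_sigmaLog hψ hinj hc
  have h1 := hC1 ψ hψ hinj hc R hR
  have h2 := hC2 R hR ψ h Hh (-1) (by simp)
  obtain ⟨X, hX⟩ : ∃ X : ℝ, X = R ^ 2 / (R ^ 2 - 1) := ⟨_, rfl⟩
  obtain ⟨u, hu⟩ : ∃ u : ℝ, u = -1 - t := ⟨_, rfl⟩
  have hu0 : 0 ≤ u := by linarith
  have hu1 : u ≤ 1 := by linarith
  have hX0 : 0 < X := by
    rw [hX]
    have : 0 < R ^ 2 - 1 := by nlinarith
    positivity
  rw [← hX] at h1 h2 ⊢
  rw [← hu]
  have hRm : ∀ θ : ℝ, 1 < ‖(R : ℂ) * Complex.exp ((θ : ℂ) * Complex.I)‖ := by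
    intro θ
    rw [norm_mul, Complex.norm_exp_ofReal_mul_I, mul_one, Complex.norm_real,
      Real.norm_of_nonneg (by linarith)]
    exact hR
  obtain ⟨x, hx⟩ : ∃ x : ℝ → ℝ, x = fun θ : ℝ =>
    ‖deriv ψ ((R : ℂ) * Complex.exp ((θ : ℂ) * Complex.I))‖ := ⟨_, rfl⟩
  have hxpos : ∀ θ, 0 < x θ := by
    intro θ
    rw [hx]
    exact norm_pos_iff.mpr (deriv_ne_of_inj isOpen_ext hψ hinj (hRm θ))
  have hxc : Continuous x := by
    rw [hx]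
    exact (((hψ.deriv isOpen_ext).continuousOn).comp_continuous (by fun_prop)
      (fun θ => hRm θ)).norm
  have e1 : (∫ θ in (0:ℝ)..(2 * π), 1 / ‖deriv ψ ((R : ℂ) * Complex.exp ((θ : ℂ) * Complex.I))‖ ^ 2)
      = ∫ θ in (0:ℝ)..(2 * π), 1 / x θ ^ 2 := by rw [hx]
  have e2 : (∫ θ in (0:ℝ)..(2 * π),
      ‖Complex.exp (-1 * h ((R : ℂ) * Complex.exp ((θ : ℂ) * Complex.I)))‖)
      = ∫ θ in (0:ℝ)..(2 * π), 1 / x θ := by
    apply intervalIntegral.integral_congr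
    intro θ _
    simp only
    rw [neg_one_mul, Complex.exp_neg, norm_inv, Hh.exp_eq _ (hRm θ), hx, one_div]
  have e3 : (∫ θ in (0:ℝ)..(2 * π),
      ‖deriv ψ ((R : ℂ) * Complex.exp ((θ : ℂ) * Complex.I))‖ ^ t)
      = ∫ θ in (0:ℝ)..(2 * π), x θ ^ t := by rw [hx]
  rw [e1] at h1
  rw [e2] at h2
  rw [e3]
  have e4 : (4 / 9 : ℝ) * ‖(-1 : ℂ)‖ ^ 2 = 4 / 9 := by simp
  rw [e4] at h2
  obtain ⟨e, he⟩ : ∃ e : ℝ, e = 4 / 9 + u * (b - 4 / 9) := ⟨_, rfl⟩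
  rw [← he]
  have hXe : 0 < X ^ e := Real.rpow_pos_of_pos hX0 _
  have hX4 : 0 < X ^ (-(4 / 9) : ℝ) := Real.rpow_pos_of_pos hX0 _
  have hXb : 0 < X ^ (-b) := Real.rpow_pos_of_pos hX0 _
  -- pointwise
  have hpt : ∀ θ, x θ ^ t ≤ X ^ e * ((1 - u) * (X ^ (-(4 / 9) : ℝ) * (1 / x θ))
      + u * (X ^ (-b) * (1 / x θ ^ 2))) := by
    intro θ
    have hp := hxpos θ
    have hA : 0 ≤ X ^ (-(4 / 9) : ℝ) * (1 / x θ) := by positivity
    have hB : 0 ≤ X ^ (-b) * (1 / x θ ^ 2) := by positivity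
    have h3 := Real.geom_mean_le_arith_mean2_weighted (by linarith : 0 ≤ 1 - u) hu0 hA hB
      (by ring)
    have h4 : (X ^ (-(4 / 9) : ℝ) * (1 / x θ)) ^ (1 - u) * (X ^ (-b) * (1 / x θ ^ 2)) ^ u
        = X ^ (-e) * x θ ^ t := by
      have i1 : 1 / x θ = x θ ^ (-1 : ℝ) := by
        rw [Real.rpow_neg_one, one_div]
      have i2 : 1 / x θ ^ 2 = x θ ^ (-2 : ℝ) := by
        rw [Real.rpow_neg hp.le, Real.rpow_ofNat, one_div]
      rw [i1, i2, Real.mul_rpow hX4.le (Real.rpow_nonneg hp.le _),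
        Real.mul_rpow hXb.le (Real.rpow_nonneg hp.le _), ← Real.rpow_mul hX0.le,
        ← Real.rpow_mul hX0.le, ← Real.rpow_mul hp.le, ← Real.rpow_mul hp.le]
      have i3 : X ^ (-(4 / 9) * (1 - u)) * x θ ^ (-1 * (1 - u)) * (X ^ (-b * u) * x θ ^ (-2 * u))
          = (X ^ (-(4 / 9) * (1 - u)) * X ^ (-b * u)) * (x θ ^ (-1 * (1 - u)) * x θ ^ (-2 * u)) := by
        ring
      rw [i3, ← Real.rpow_add hX0, ← Real.rpow_add hp]
      congr 2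
      · rw [he]; ring
      · rw [hu]; ring
    rw [h4] at h3
    have h5 : X ^ e * X ^ (-e) = 1 := by
      rw [← Real.rpow_add hX0, add_neg_cancel, Real.rpow_zero]
    calc x θ ^ t = X ^ e * (X ^ (-e) * x θ ^ t) := by rw [← mul_assoc, h5, one_mul]
      _ ≤ _ := by gcongr
  have c1 : Continuous (fun θ => 1 / x θ) := continuous_const.div hxc (fun θ => (hxpos θ).ne')
  have c2 : Continuous (fun θ => 1 / x θ ^ 2) :=
    continuous_const.div (hxc.pow 2) (fun θ => (pow_pos (hxpos θ) 2).ne')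
  have c3 : Continuous (fun θ => x θ ^ t) := hxc.rpow_const (fun θ => Or.inl (hxpos θ).ne')
  have hpi := Real.pi_pos
  have h6 : ∫ θ in (0:ℝ)..(2 * π), x θ ^ t ≤ ∫ θ in (0:ℝ)..(2 * π),
      X ^ e * ((1 - u) * (X ^ (-(4 / 9) : ℝ) * (1 / x θ)) + u * (X ^ (-b) * (1 / x θ ^ 2))) := by
    apply intervalIntegral.integral_mono (by positivity) (c3.intervalIntegrable _ _)
    · apply Continuous.intervalIntegrable
      fun_prop
    · exact hpt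
  have h7 : (∫ θ in (0:ℝ)..(2 * π),
      X ^ e * ((1 - u) * (X ^ (-(4 / 9) : ℝ) * (1 / x θ)) + u * (X ^ (-b) * (1 / x θ ^ 2))))
      = X ^ e * ((1 - u) * (X ^ (-(4 / 9) : ℝ) * ∫ θ in (0:ℝ)..(2 * π), 1 / x θ)
        + u * (X ^ (-b) * ∫ θ in (0:ℝ)..(2 * π), 1 / x θ ^ 2)) := by
    rw [intervalIntegral.integral_const_mul, intervalIntegral.integral_add,
      intervalIntegral.integral_const_mul, intervalIntegral.integral_const_mul,
      intervalIntegral.integral_const_mul, intervalIntegral.integral_const_mul]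
    · exact (continuous_const.mul (continuous_const.mul c1)).intervalIntegrable _ _
    · exact (continuous_const.mul (continuous_const.mul c2)).intervalIntegrable _ _
  rw [h7] at h6
  have j1 : X ^ (-b) * ((1 / (2 * π)) * ∫ θ in (0:ℝ)..(2 * π), 1 / x θ ^ 2) ≤ |C1| := by
    have h8 : X ^ b * X ^ (-b) = 1 := by
      rw [← Real.rpow_add hX0, add_neg_cancel, Real.rpow_zero]
    calc X ^ (-b) * ((1 / (2 * π)) * ∫ θ in (0:ℝ)..(2 * π), 1 / x θ ^ 2)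
        ≤ X ^ (-b) * (C1 * X ^ b) := by gcongr
      _ = C1 := by linear_combination C1 * h8
      _ ≤ |C1| := le_abs_self _
  have j2 : X ^ (-(4 / 9) : ℝ) * ((1 / (2 * π)) * ∫ θ in (0:ℝ)..(2 * π), 1 / x θ) ≤ C2 := by
    have h8 : X ^ (4 / 9 : ℝ) * X ^ (-(4 / 9) : ℝ) = 1 := by
      rw [← Real.rpow_add hX0, add_neg_cancel, Real.rpow_zero]
    calc X ^ (-(4 / 9) : ℝ) * ((1 / (2 * π)) * ∫ θ in (0:ℝ)..(2 * π), 1 / x θ)
        ≤ X ^ (-(4 / 9) : ℝ) * (C2 * X ^ (4 / 9 : ℝ)) := by gcongr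
      _ = C2 := by linear_combination C2 * h8
  calc (1 / (2 * π)) * ∫ θ in (0:ℝ)..(2 * π), x θ ^ t
      ≤ (1 / (2 * π)) * (X ^ e * ((1 - u) * (X ^ (-(4 / 9) : ℝ) * ∫ θ in (0:ℝ)..(2 * π), 1 / x θ)
        + u * (X ^ (-b) * ∫ θ in (0:ℝ)..(2 * π), 1 / x θ ^ 2))) := by gcongr
    _ = X ^ e * ((1 - u) * (X ^ (-(4 / 9) : ℝ) * ((1 / (2 * π)) * ∫ θ in (0:ℝ)..(2 * π), 1 / x θ))
        + u * (X ^ (-b) * ((1 / (2 * π)) * ∫ θ in (0:ℝ)..(2 * π), 1 / x θ ^ 2))) := by ring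
    _ ≤ X ^ e * ((1 - u) * C2 + u * |C1|) := by
        have : 0 ≤ 1 - u := by linarith
        gcongr
    _ ≤ X ^ e * (|C1| + C2) := by
        have k1 : (1 - u) * C2 ≤ 1 * C2 := by gcongr; linarith
        have k2 : u * |C1| ≤ 1 * |C1| := by gcongr
        apply mul_le_mul_of_nonneg_left _ hXe.le
        linarith
    _ = (|C1| + C2) * X ^ e := by ring

end Pool.Agent.Helper24.Br
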