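import Pool.Agent.Helper24.Br.Defs

/-!
MP_16b0ee, project BR, BR-7: `1 < Th (9 / 8)`.

With `u = x (1 - x)` and `4 p = 7 - 165 u + 3303 u ^ 2 - 21727 u ^ 3 + 51564 u ^ 4` one has
`1 / D >= 2 p - p ^ 2 D` for `D = x ^ z + (1 - x) ^ z`, `z = 33 / 8`, and the integral of
`u (2 p - p ^ 2 D)` is an explicit rational number.
-/

set_option autoImplicit false

open MeasureTheory Set Filter Topology

namespace Pool.Agent.Helper24.Br

/-- the polynomial `4 p` -/
private noncomputable def pp (x : ℝ) : ℝ :=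
  7 - 165 * (x * (1 - x)) + 3303 * (x * (1 - x)) ^ 2 - 21727 * (x * (1 - x)) ^ 3
    + 51564 * (x * (1 - x)) ^ 4

private lemma pp_symm (x : ℝ) : pp (1 - x) = pp x := by
  simp only [pp]; ring

private lemma pp_cont : Continuous pp := by
  unfold pp; fun_prop

/-- value of a polynomial with integer coefficients -/
private noncomputable def ev (l : List ℤ) (x : ℝ) : ℝ := l.foldr (fun c s => (c : ℝ) + x * s) 0

/-- the list of the coefficients of `x (1 - x) (4 p)` -/
private def l1 : List ℤ := [0, 7, -172, 3633, -31801, 148381, -391485, 602548, -537367, 257820, -51564]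

/-- the list of the coefficients of `x (1 - x) (4 p) ^ 2` -/
private def l2 : List ℤ := [0, 49, -2359, 78087, -1616879, 24598688, -262991232, 1969555227, -10527102795, 40955624832, -117539425232, 250603103639, -397416541239, 466180543423, -398565839977, 241268368512, -97959121512, 23929614864, -2658846096]

private lemma ev_nil (x : ℝ) : ev [] x = 0 := rfl
private lemma ev_cons (c : ℤ) (l : List ℤ) (x : ℝ) : ev (c :: l) x = (c : ℝ) + x * ev l x := rfl

private lemma l1_eq (x : ℝ) : x * (1 - x) * pp x = ev l1 x := by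
  simp only [l1, ev_cons, ev_nil, pp]
  push_cast
  ring

private lemma l2_eq (x : ℝ) : x * (1 - x) * pp x ^ 2 = ev l2 x := by
  simp only [l2, ev_cons, ev_nil, pp]
  push_cast
  ring

private lemma ev_cont (l : List ℤ) : Continuous (ev l) := by
  induction l with
  | nil => exact continuous_const
  | cons c l ih =>
    have : ev (c :: l) = fun x => (c : ℝ) + x * ev l x := rfl
    rw [this]
    exact continuous_const.add (continuous_id.mul ih)

/-- the integral of a polynomial against `x ^ z`: the sum of the `c_j / (z + j + 1)` -/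
private noncomputable def iv (z : ℝ) : List ℤ → ℝ
  | [] => 0
  | c :: l => (c : ℝ) / (z + 1) + iv (z + 1) l

private lemma iv_nil (z : ℝ) : iv z [] = 0 := rfl
private lemma iv_cons (z : ℝ) (c : ℤ) (l : List ℤ) :
    iv z (c :: l) = (c : ℝ) / (z + 1) + iv (z + 1) l := rfl

private lemma integral_ev (l : List ℤ) : ∀ z : ℝ, 0 ≤ z →
    ∫ x in (0:ℝ)..1, x ^ z * ev l x = iv z l := by
  induction l with
  | nil => intro z _; simp [ev_nil, iv_nil]
  | cons c l ih =>
    intro z hz
    have hc : ∀ w : ℝ, 0 ≤ w → Continuous (fun x : ℝ => x ^ w) := fun w hw =>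
      Real.continuous_rpow_const hw
    have h1 : ∫ x in (0:ℝ)..1, x ^ z * ev (c :: l) x =
        ∫ x in (0:ℝ)..1, (x ^ z * (c : ℝ) + x ^ (z + 1) * ev l x) := by
      apply intervalIntegral.integral_congr
      intro x hx
      rw [uIcc_of_le zero_le_one] at hx
      show x ^ z * ev (c :: l) x = x ^ z * (c : ℝ) + x ^ (z + 1) * ev l x
      rw [ev_cons, Real.rpow_add_one' hx.1 (by linarith)]
      ring
    have k1 : Continuous (fun x : ℝ => x ^ z * (c : ℝ)) := (hc z hz).mul continuous_const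
    have k2 : Continuous (fun x : ℝ => x ^ (z + 1) * ev l x) :=
      (hc (z + 1) (by linarith)).mul (ev_cont l)
    rw [h1, intervalIntegral.integral_add (k1.intervalIntegrable _ _)
      (k2.intervalIntegrable _ _), ih (z + 1) (by linarith), iv_cons, intervalIntegral.integral_mul_const,
      integral_rpow (Or.inl (by linarith))]
    rw [Real.one_rpow, Real.zero_rpow (by linarith)]
    ring

private lemma num_ineq :
    (128 / 153 : ℝ) < 2 * (iv 0 l1 / 4) - 2 * (iv (33 / 8) l2 / 16) := by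
  simp only [l1, l2, iv_cons, iv_nil]
  norm_num

private lemma main_int : (128 / 153 : ℝ) <
    ∫ x in (0:ℝ)..1, x * (1 - x) / (x ^ (33 / 8 : ℝ) + (1 - x) ^ (33 / 8 : ℝ)) := by
  have hz : (0:ℝ) ≤ 33 / 8 := by norm_num
  have hcx : Continuous (fun x : ℝ => x ^ (33 / 8 : ℝ)) := Real.continuous_rpow_const hz
  have hcy : Continuous (fun x : ℝ => (1 - x) ^ (33 / 8 : ℝ)) :=
    hcx.comp (continuous_const.sub continuous_id)
  have hD : ∀ x ∈ Icc (0:ℝ) 1, 0 < x ^ (33 / 8 : ℝ) + (1 - x) ^ (33 / 8 : ℝ) := by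
    intro x hx
    rcases eq_or_lt_of_le hx.1 with h | h
    · rw [← h]; norm_num
    · have h1 : 0 < x ^ (33 / 8 : ℝ) := Real.rpow_pos_of_pos h _
      have h2 : 0 ≤ (1 - x) ^ (33 / 8 : ℝ) := Real.rpow_nonneg (by linarith [hx.2]) _
      linarith
  -- the lower bound
  have hA : ∫ x in (0:ℝ)..1, x * (1 - x) * pp x = iv 0 l1 := by
    rw [← integral_ev l1 0 le_rfl]
    apply intervalIntegral.integral_congr
    intro x _
    show x * (1 - x) * pp x = x ^ (0:ℝ) * ev l1 x
    rw [l1_eq, Real.rpow_zero, one_mul]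
  have hB : ∫ x in (0:ℝ)..1, x ^ (33 / 8 : ℝ) * (x * (1 - x) * pp x ^ 2) = iv (33 / 8) l2 := by
    rw [← integral_ev l2 (33 / 8) hz]
    apply intervalIntegral.integral_congr
    intro x _
    show x ^ (33 / 8 : ℝ) * (x * (1 - x) * pp x ^ 2) = x ^ (33 / 8 : ℝ) * ev l2 x
    rw [l2_eq]
  have hB' : ∫ x in (0:ℝ)..1, (1 - x) ^ (33 / 8 : ℝ) * (x * (1 - x) * pp x ^ 2) =
      iv (33 / 8) l2 := by
    rw [← hB]
    have h1 := intervalIntegral.integral_comp_sub_left (a := (0:ℝ)) (b := 1)
      (fun x : ℝ => x ^ (33 / 8 : ℝ) * (x * (1 - x) * pp x ^ 2)) 1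
    rw [sub_self, sub_zero] at h1
    rw [← h1]
    apply intervalIntegral.integral_congr
    intro x _
    show (1 - x) ^ (33 / 8 : ℝ) * (x * (1 - x) * pp x ^ 2) =
      (1 - x) ^ (33 / 8 : ℝ) * ((1 - x) * (1 - (1 - x)) * pp (1 - x) ^ 2)
    rw [pp_symm]
    ring
  have hc1 : Continuous (fun x : ℝ => x * (1 - x) * pp x) := by
    have := pp_cont
    fun_prop
  have hc2 : Continuous (fun x : ℝ => x ^ (33 / 8 : ℝ) * (x * (1 - x) * pp x ^ 2)) := by
    have := pp_cont
    exact hcx.mul (by fun_prop)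
  have hc3 : Continuous (fun x : ℝ => (1 - x) ^ (33 / 8 : ℝ) * (x * (1 - x) * pp x ^ 2)) := by
    have := pp_cont
    exact hcy.mul (by fun_prop)
  have hlow : ∫ x in (0:ℝ)..1, (2 / 4 * (x * (1 - x) * pp x) -
      1 / 16 * (x ^ (33 / 8 : ℝ) * (x * (1 - x) * pp x ^ 2) +
        (1 - x) ^ (33 / 8 : ℝ) * (x * (1 - x) * pp x ^ 2))) =
      2 * (iv 0 l1 / 4) - 2 * (iv (33 / 8) l2 / 16) := by
    have k1 : Continuous (fun x : ℝ => 2 / 4 * (x * (1 - x) * pp x)) := hc1.const_mul _
    have k2 : Continuous (fun x : ℝ => 1 / 16 * (x ^ (33 / 8 : ℝ) * (x * (1 - x) * pp x ^ 2) +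
        (1 - x) ^ (33 / 8 : ℝ) * (x * (1 - x) * pp x ^ 2))) := (hc2.add hc3).const_mul _
    rw [intervalIntegral.integral_sub (k1.intervalIntegrable _ _) (k2.intervalIntegrable _ _),
      intervalIntegral.integral_const_mul, intervalIntegral.integral_const_mul,
      intervalIntegral.integral_add (hc2.intervalIntegrable _ _) (hc3.intervalIntegrable _ _),
      hA, hB, hB']
    ring
  refine lt_of_lt_of_le num_ineq ?_
  rw [← hlow]
  apply intervalIntegral.integral_mono_on zero_le_one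
  · exact ((hc1.const_mul _).sub ((hc2.add hc3).const_mul _)).intervalIntegrable _ _
  · apply ContinuousOn.intervalIntegrable
    rw [uIcc_of_le zero_le_one]
    apply ContinuousOn.div
    · fun_prop
    · exact (hcx.add hcy).continuousOn
    · intro x hx
      exact (hD x hx).ne'
  · intro x hx
    have hd := hD x hx
    set D := x ^ (33 / 8 : ℝ) + (1 - x) ^ (33 / 8 : ℝ) with hDdef
    have hu : 0 ≤ x * (1 - x) := mul_nonneg hx.1 (by linarith [hx.2])
    rw [le_div_iff₀ hd]
    have h1 : 0 ≤ x * (1 - x) * (1 - pp x / 4 * D) ^ 2 := mul_nonneg hu (sq_nonneg _)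
    have h2 : (2 / 4 * (x * (1 - x) * pp x) -
      1 / 16 * (x ^ (33 / 8 : ℝ) * (x * (1 - x) * pp x ^ 2) +
        (1 - x) ^ (33 / 8 : ℝ) * (x * (1 - x) * pp x ^ 2))) * D =
        x * (1 - x) - x * (1 - x) * (1 - pp x / 4 * D) ^ 2 := by
      rw [hDdef]; ring
    rw [h2]
    linarith

theorem Th_gt : 1 < Th (9 / 8) := by
  have h := main_int
  unfold Th
  have e : (9 / 8 + 3 : ℝ) = 33 / 8 := by norm_num
  rw [e]
  have h2 : (9 / 8 : ℝ) * (9 / 8 + 1) / 2 = 153 / 128 := by norm_num
  rw [h2]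
  calc (1:ℝ) = 153 / 128 * (128 / 153) := by norm_num
    _ < _ := by
      apply mul_lt_mul_of_pos_left h
      norm_num

end Pool.Agent.Helper24.Br
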