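import Mathlib
import Pool.Agent.Helper24.Br.Defs

/-!
The value of the constant at `b = 1`.
-/

set_option autoImplicit false

open MeasureTheory Set Metric Filter Topology
open scoped Real

namespace Pool.Agent.Helper24.Br

theorem pi_den_pos (x : ℝ) : 0 < x ^ 4 + (1 - x) ^ 4 := by
  have h1 : 0 ≤ x ^ 4 := by positivity
  have h2 : 0 ≤ (1 - x) ^ 4 := by positivity
  rcases eq_or_ne x 0 with h | h
  · rw [h]; norm_num
  · have : 0 < x ^ 4 := by positivity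
    linarith

theorem pi_hasDeriv (x : ℝ) : HasDerivAt
    (fun x : ℝ => 1 / 2 * Real.arctan ((2 * x - 1) / (2 * x ^ 2 - 2 * x + 1)))
    (x * (1 - x) / (x ^ 4 + (1 - x) ^ 4)) x := by
  have hD : 0 < 2 * x ^ 2 - 2 * x + 1 := by nlinarith [sq_nonneg (2 * x - 1)]
  have h1 : HasDerivAt (fun x : ℝ => 2 * x - 1) 2 x := by
    simpa using ((hasDerivAt_id x).const_mul 2).sub_const 1
  have h2 : HasDerivAt (fun x : ℝ => 2 * x ^ 2 - 2 * x + 1) (4 * x - 2) x := by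
    have := ((((hasDerivAt_pow 2 x).const_mul 2).sub ((hasDerivAt_id x).const_mul 2))).add_const 1
    refine this.congr_deriv ?_
    norm_num
    ring
  have h3 := ((h1.div h2 hD.ne').arctan).const_mul (1 / 2)
  refine h3.congr_deriv ?_
  have hq := pi_den_pos x
  have hD2 : 2 * x ^ 2 - 2 * x + 1 ≠ 0 := hD.ne'
  have e : 1 + ((2 * x - 1) / (2 * x ^ 2 - 2 * x + 1)) ^ 2 =
      2 * (x ^ 4 + (1 - x) ^ 4) / (2 * x ^ 2 - 2 * x + 1) ^ 2 := by
    rw [eq_div_iff (pow_ne_zero 2 hD2), add_mul, div_pow, div_mul_cancel₀ _ (pow_ne_zero 2 hD2)]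
    ring
  rw [Pi.div_apply, e]
  have e2 : 2 * (2 * x ^ 2 - 2 * x + 1) - (2 * x - 1) * (4 * x - 2) = 4 * (x * (1 - x)) := by ring
  rw [e2]
  generalize 2 * x ^ 2 - 2 * x + 1 = D at hD2
  generalize x ^ 4 + (1 - x) ^ 4 = q at hq
  have hq2 : q ≠ 0 := hq.ne'
  field_simp
  ring

theorem Th_one : Th 1 = π / 4 := by
  have h1 : ∫ x in (0:ℝ)..1, x * (1 - x) / (x ^ ((1 : ℝ) + 3) + (1 - x) ^ ((1 : ℝ) + 3)) =
      ∫ x in (0:ℝ)..1, x * (1 - x) / (x ^ 4 + (1 - x) ^ 4) := by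
    refine intervalIntegral.integral_congr fun x _ => ?_
    have e : (1 : ℝ) + 3 = ((4 : ℕ) : ℝ) := by norm_num
    simp only [e, Real.rpow_natCast]
  have hc : Continuous fun x : ℝ => x * (1 - x) / (x ^ 4 + (1 - x) ^ 4) := by
    refine Continuous.div (by fun_prop) (by fun_prop) fun x => (pi_den_pos x).ne'
  have h2 : ∫ x in (0:ℝ)..1, x * (1 - x) / (x ^ 4 + (1 - x) ^ 4) =
      1 / 2 * Real.arctan ((2 * 1 - 1) / (2 * 1 ^ 2 - 2 * 1 + 1)) -
        1 / 2 * Real.arctan ((2 * 0 - 1) / (2 * 0 ^ 2 - 2 * 0 + 1)) :=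
    intervalIntegral.integral_eq_sub_of_hasDerivAt (fun x _ => pi_hasDeriv x)
      (hc.intervalIntegrable _ _)
  rw [Th, h1, h2]
  have e1 : ((2 : ℝ) * 1 - 1) / (2 * 1 ^ 2 - 2 * 1 + 1) = 1 := by norm_num
  have e2 : ((2 : ℝ) * 0 - 1) / (2 * 0 ^ 2 - 2 * 0 + 1) = -1 := by norm_num
  rw [e1, e2, Real.arctan_neg, Real.arctan_one]
  ring

end Pool.Agent.Helper24.Br
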